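import Mathlib

set_option autoImplicit false

namespace Pool.Agent.Y171.Span

open Set Metric

abbrev T : Type := AddCircle (1 : ℝ)

/-- the arc `{(x, 7/8 + 3x/4)}` -/
noncomputable def γ (x : ℝ) : T × T := ((x : T), ((7 / 8 + 3 / 4 * x : ℝ) : T))

noncomputable def Z : Set (T × T) := γ '' Icc 0 1

noncomputable def W : Set (T × T) := Z ∪ Prod.swap '' Z

theorem cγ : Continuous γ := by
  unfold γ
  refine Continuous.prodMk (AddCircle.continuous_mk' 1) ((AddCircle.continuous_mk' 1).comp ?_)
  fun_prop

theorem Z_ne : Z.Nonempty := ⟨γ 0, 0, by simp, rfl⟩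

theorem W_ne : W.Nonempty := Z_ne.mono subset_union_left

theorem Z_comp : IsCompact Z := isCompact_Icc.image cγ

theorem swap_mem {p : T × T} (h : p ∈ W) : p.swap ∈ W := by
  rcases h with h | ⟨q, hq, rfl⟩
  · exact Or.inr ⟨p, h, rfl⟩
  · exact Or.inl (by simpa using hq)

/-- the bump function -/
noncomputable def ψ (x y : T) : ℝ := max 0 (1 - 32 * infDist (x, y) W)

theorem infDist_symm (x y : T) : infDist (x, y) W = infDist (y, x) W := by
  have key : ∀ x y : T, infDist (x, y) W ≤ infDist (y, x) W := by
    intro x y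
    rw [le_infDist W_ne]
    intro q hq
    have h1 := infDist_le_dist_of_mem (x := (x, y)) (swap_mem hq)
    refine h1.trans (le_of_eq ?_)
    rw [Prod.dist_eq, Prod.dist_eq]
    simp [max_comm]
  exact le_antisymm (key x y) (key y x)

theorem ψ_symm (x y : T) : ψ x y = ψ y x := by
  unfold ψ; rw [infDist_symm]

theorem ψ_nonneg (x y : T) : 0 ≤ ψ x y := le_max_left _ _

theorem ψ_le (x y : T) : ψ x y ≤ 1 := by
  unfold ψ
  have : 0 ≤ infDist (x, y) W := infDist_nonneg
  exact max_le (by norm_num) (by linarith)

theorem ψ_lip (x y z : T) : ψ x z ≤ ψ y z + 32 * dist x y := by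
  unfold ψ
  have h1 : infDist (y, z) W ≤ infDist (x, z) W + dist (y, z) (x, z) := infDist_le_infDist_add_dist
  have h2 : dist (y, z) (x, z) = dist x y := by
    rw [Prod.dist_eq]; simp [dist_comm]
  rw [h2] at h1
  have h3 : 0 ≤ dist x y := dist_nonneg
  refine max_le ?_ ?_
  · have := le_max_left (0 : ℝ) (1 - 32 * infDist (y, z) W)
    linarith
  · have := le_max_right (0 : ℝ) (1 - 32 * infDist (y, z) W)
    linarith

/-- the new distance -/
noncomputable def D (x y : T) : ℝ := min (16 * dist x y) (1 / 2 + ψ x y / 2)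

theorem D_self (x : T) : D x x = 0 := by
  unfold D
  have := ψ_nonneg x x
  rw [dist_self, mul_zero]
  exact min_eq_left (by linarith)

theorem D_comm (x y : T) : D x y = D y x := by
  unfold D; rw [dist_comm, ψ_symm]

theorem D_le_one (x y : T) : D x y ≤ 1 := by
  unfold D
  have := ψ_le x y
  exact (min_le_right _ _).trans (by linarith)

theorem D_tri_aux (x y z : T) (h : D x y = 16 * dist x y) : D x z ≤ D x y + D y z := by
  rw [h]
  unfold D
  rcases le_total (16 * dist y z) (1 / 2 + ψ y z / 2) with h2 | h2
  · rw [min_eq_left h2]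
    have := dist_triangle x y z
    exact (min_le_left _ _).trans (by linarith)
  · rw [min_eq_right h2]
    have := ψ_lip x y z
    exact (min_le_right _ _).trans (by linarith)

theorem D_tri (x y z : T) : D x z ≤ D x y + D y z := by
  by_cases h : D x y = 16 * dist x y
  · exact D_tri_aux x y z h
  by_cases h' : D z y = 16 * dist z y
  · have := D_tri_aux z y x h'
    rw [D_comm x z, D_comm x y, D_comm y z]
    linarith
  have key : ∀ a b : T, D a b ≠ 16 * dist a b → 1 / 2 ≤ D a b := by
    intro a b hab
    unfold D at *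
    have h3 : ¬ 16 * dist a b ≤ 1 / 2 + ψ a b / 2 := fun h4 => hab (min_eq_left h4)
    push Not at h3
    rw [min_eq_right h3.le]
    have := ψ_nonneg a b
    linarith
  have h1 := key x y h
  have h2 := key z y h'
  rw [D_comm z y] at h2
  have := D_le_one x z
  linarith

theorem eq_of_D (x y : T) (h : D x y = 0) : x = y := by
  unfold D at h
  have h1 := ψ_nonneg x y
  rcases min_choice (16 * dist x y) (1 / 2 + ψ x y / 2) with h2 | h2
  · rw [h2] at h
    exact dist_eq_zero.1 (by linarith)
  · rw [h2] at h
    linarith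

/-- the circle with the new metric -/
def X : Type := T

def mk : T → X := id

noncomputable instance : MetricSpace X where
  dist x y := D x y
  dist_self x := D_self x
  dist_comm x y := D_comm x y
  dist_triangle x y z := D_tri x y z
  eq_of_dist_eq_zero {x y} h := eq_of_D x y h

theorem dist_mk (x y : T) : dist (mk x) (mk y) = D x y := rfl

theorem mk_lip : LipschitzWith 16 mk := by
  refine LipschitzWith.of_dist_le_mul fun x y => ?_
  rw [dist_mk]
  exact min_le_left _ _

theorem mk_cont : Continuous mk := mk_lip.continuous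

noncomputable def homeo : T ≃ₜ X :=
  Continuous.homeoOfEquivCompactToT2 (f := (Equiv.refl T : T ≃ X)) mk_cont

end Pool.Agent.Y171.Span
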