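import Mathlib
import Pool.Agent.Y171.Span

set_option autoImplicit false

namespace Pool.Agent.Y171.Span

open Set Metric

theorem rep (z : T) (v r : ℝ) (h : dist z (v : T) < r) : ∃ w : ℝ, (w : T) = z ∧ |w - v| < r := by
  obtain ⟨z0, rfl⟩ := QuotientAddGroup.mk_surjective z
  refine ⟨z0 - round (z0 - v), ?_, ?_⟩
  · have : ((round (z0 - v) : ℝ) : T) = 0 := by
      rw [AddCircle.coe_eq_zero_iff]
      exact ⟨round (z0 - v), by simp⟩
    show ((z0 - round (z0 - v) : ℝ) : T) = (z0 : T)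
    rw [AddCircle.coe_sub, this, sub_zero]
  · have h2 : dist ((z0 : ℝ) : T) (v : T) = |z0 - v - round (z0 - v)| := by
      rw [dist_eq_norm, ← AddCircle.coe_sub, UnitAddCircle.norm_eq]
    have h3 : dist ((z0 : ℝ) : T) (v : T) < r := h
    rw [h2] at h3
    have : z0 - round (z0 - v) - v = z0 - v - round (z0 - v) := by ring
    rw [this]; exact h3

theorem coe_eq {a b : ℝ} : (a : T) = (b : T) ↔ ∃ k : ℤ, a = b + k := by
  constructor
  · intro h
    have : ((a - b : ℝ) : T) = 0 := by rw [AddCircle.coe_sub, h, sub_self]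
    rw [AddCircle.coe_eq_zero_iff] at this
    obtain ⟨k, hk⟩ := this
    refine ⟨k, ?_⟩
    simp at hk
    linarith
  · rintro ⟨k, rfl⟩
    rw [AddCircle.coe_add]
    have : ((k : ℝ) : T) = 0 := by
      rw [AddCircle.coe_eq_zero_iff]
      exact ⟨k, by simp⟩
    rw [this, add_zero]

theorem int_lt {k : ℤ} {a : ℝ} {n : ℤ} (h : (k : ℝ) < a) (h2 : a ≤ n) : k < n := by
  exact_mod_cast h.trans_le h2

theorem dist_γ {x : ℝ} (hx : x ∈ Icc (0 : ℝ) 1) : 1 / 16 ≤ dist (γ x).1 (γ x).2 := by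
  by_contra h
  push Not at h
  obtain ⟨w, hw, hw2⟩ := rep _ _ _ h
  obtain ⟨k, rfl⟩ := coe_eq.1 hw
  obtain ⟨h0, h1⟩ := hx
  rw [abs_lt] at hw2
  have h3 : (k : ℝ) < 1 := by linarith
  have h4 : (0 : ℝ) < k := by linarith
  have h5 : k < 1 := by exact_mod_cast h3
  have h6 : 0 < k := by exact_mod_cast h4
  omega

theorem D_γ {x : ℝ} (hx : x ∈ Icc (0 : ℝ) 1) : 1 ≤ D (γ x).1 (γ x).2 := by
  unfold D
  have h1 := dist_γ hx
  have h2 : ψ (γ x).1 (γ x).2 = 1 := by
    unfold ψ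
    have : infDist ((γ x).1, (γ x).2) W = 0 := by
      apply infDist_zero_of_mem
      exact Or.inl ⟨x, hx, rfl⟩
    rw [this]; norm_num
  rw [h2]
  exact le_min (by linarith) (by norm_num)

/-- the large set -/
noncomputable def Z1 : Set (X × X) := (fun x => (mk (γ x).1, mk (γ x).2)) '' Icc 0 1

theorem Z1_conn : IsConnected Z1 := by
  unfold Z1
  refine (isConnected_Icc (by norm_num)).image _ (Continuous.continuousOn ?_)
  have := cγ
  exact (mk_cont.comp (continuous_fst.comp this)).prodMk (mk_cont.comp (continuous_snd.comp this))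

theorem Z1_fst : Prod.fst '' Z1 = univ := by
  rw [eq_univ_iff_forall]
  intro z
  obtain ⟨b, hb, hbz⟩ := AddCircle.eq_coe_Ico (p := (1 : ℝ)) (z : T)
  exact ⟨_, ⟨b, ⟨hb.1, hb.2.le⟩, rfl⟩, hbz⟩

theorem Z1_dist : ∀ p ∈ Z1, 1 ≤ dist p.1 p.2 := by
  rintro p ⟨x, hx, rfl⟩
  exact D_γ hx

/-! the span is at most `1/2` -/

noncomputable def Y (p : T × T) : ℝ := (AddCircle.equivIco 1 (3 / 4) p.2 : ℝ)

noncomputable def U (p : T × T) : ℝ := (AddCircle.equivIco 1 0 (p.2 - p.1) : ℝ)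

theorem coe_Y (p : T × T) : ((Y p : ℝ) : T) = p.2 := by
  unfold Y; exact AddCircle.coe_equivIco

theorem coe_U (p : T × T) : ((U p : ℝ) : T) = p.2 - p.1 := by
  unfold U; exact AddCircle.coe_equivIco

theorem Y_eq {p : T × T} {w : ℝ} (h : (w : T) = p.2) (h2 : w ∈ Ico (3 / 4 : ℝ) (3 / 4 + 1)) :
    Y p = w := by
  unfold Y
  rw [← h, AddCircle.equivIco_coe_eq h2]

theorem U_eq {p : T × T} {w : ℝ} (h : (w : T) = p.2 - p.1) (h2 : w ∈ Ico (0 : ℝ) (0 + 1)) :
    U p = w := by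
  unfold U
  rw [← h, AddCircle.equivIco_coe_eq h2]

/-- near `Z` -/
def near (p : T × T) : Prop := ∃ q ∈ Z, dist p q < 1 / 32

theorem near_bounds {p : T × T} (h : near p) :
    27 / 32 < Y p ∧ Y p < 53 / 32 ∧ 9 / 16 < U p ∧ U p < 15 / 16 := by
  obtain ⟨q, ⟨x, ⟨hx0, hx1⟩, rfl⟩, hq⟩ := h
  rw [Prod.dist_eq] at hq
  have h1 : dist p.1 ((x : ℝ) : T) < 1 / 32 := (le_max_left _ _).trans_lt hq
  have h2 : dist p.2 ((7 / 8 + 3 / 4 * x : ℝ) : T) < 1 / 32 := (le_max_right _ _).trans_lt hq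
  obtain ⟨a, ha, ha2⟩ := rep _ _ _ h1
  obtain ⟨b, hb, hb2⟩ := rep _ _ _ h2
  rw [abs_lt] at ha2 hb2
  have hY : Y p = b := Y_eq hb ⟨by linarith, by linarith⟩
  have hU : U p = b - a := by
    refine U_eq ?_ ⟨by linarith, by linarith⟩
    rw [AddCircle.coe_sub, ha, hb]
  rw [hY, hU]
  refine ⟨by linarith, by linarith, by linarith, by linarith⟩

theorem contU {p : T × T} (h : p.1 ≠ p.2) : ContinuousAt U p := by
  have h0 : p.2 - p.1 ≠ ((0 : ℝ) : T) := by
    intro h1
    apply h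
    have : p.2 - p.1 = 0 := by simpa using h1
    exact (sub_eq_zero.1 this).symm
  have h1 : ContinuousAt (AddCircle.equivIco (1 : ℝ) 0) (p.2 - p.1) :=
    AddCircle.continuousAt_equivIco 1 0 h0
  have h2 : ContinuousAt (fun p : T × T => p.2 - p.1) p := by fun_prop
  have h3 : ContinuousAt (fun p : T × T => AddCircle.equivIco (1 : ℝ) 0 (p.2 - p.1)) p :=
    ContinuousAt.comp (f := fun p : T × T => p.2 - p.1) h1 h2
  exact continuous_subtype_val.continuousAt.comp h3

theorem contY {p : T × T} (h : p.2 ≠ ((3 / 4 : ℝ) : T)) : ContinuousAt Y p := by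
  have h1 : ContinuousAt (AddCircle.equivIco (1 : ℝ) (3 / 4)) p.2 :=
    AddCircle.continuousAt_equivIco 1 (3 / 4) h
  have h3 : ContinuousAt (fun p : T × T => AddCircle.equivIco (1 : ℝ) (3 / 4) p.2) p :=
    ContinuousAt.comp (f := fun p : T × T => p.2) h1 continuousAt_snd
  exact continuous_subtype_val.continuousAt.comp h3

theorem near_ne {p : T × T} (h : near p) : p.1 ≠ p.2 := by
  intro h1
  have h2 := near_bounds h
  have h3 := coe_U p
  rw [h1, sub_self, AddCircle.coe_eq_zero_iff] at h3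
  obtain ⟨k, hk⟩ := h3
  simp at hk
  have h4 : (0 : ℝ) < k := by linarith
  have h5 : (k : ℝ) < 1 := by linarith
  have h6 : 0 < k := by exact_mod_cast h4
  have h7 : k < 1 := by exact_mod_cast h5
  omega

theorem near_ne2 {p : T × T} (h : near p) : p.2 ≠ ((3 / 4 : ℝ) : T) := by
  intro h1
  have h2 := near_bounds h
  have h3 : Y p = 3 / 4 := Y_eq h1.symm ⟨by linarith, by norm_num⟩
  linarith

/-- key: no connected set near `Z` has equal projections -/
theorem key (P : Set (T × T)) (hc : IsConnected P) (hn : ∀ p ∈ P, near p)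
    (he : Prod.fst '' P = Prod.snd '' P) : False := by
  have cont : ContinuousOn (fun p => Y p - U p) P := fun p hp =>
    ((contY (near_ne2 (hn p hp))).sub (contU (near_ne (hn p hp)))).continuousWithinAt
  have coe_g : ∀ p, ((Y p - U p : ℝ) : T) = p.1 := by
    intro p
    rw [AddCircle.coe_sub, coe_Y, coe_U]; abel
  -- location of `g`
  have loc : ∀ p ∈ P, ∃ k : ℤ, 27 / 32 + k < Y p - U p ∧ Y p - U p < 53 / 32 + k := by
    intro p hp
    have : p.1 ∈ Prod.snd '' P := he ▸ ⟨p, hp, rfl⟩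
    obtain ⟨q, hq, hq1⟩ := this
    have h1 : ((Y p - U p : ℝ) : T) = ((Y q : ℝ) : T) := by rw [coe_g, coe_Y, hq1]
    obtain ⟨k, hk⟩ := coe_eq.1 h1
    have h2 := near_bounds (hn q hq)
    exact ⟨k, by linarith, by linarith⟩
  obtain ⟨p0, hp0⟩ := hc.nonempty
  obtain ⟨k, hk1, hk2⟩ := loc p0 hp0
  have hord : OrdConnected ((fun p => Y p - U p) '' P) :=
    (hc.isPreconnected.image _ cont).ordConnected
  -- `k` does not depend on `p`
  have loc' : ∀ p ∈ P, 27 / 32 + k < Y p - U p ∧ Y p - U p < 53 / 32 + k := by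
    intro p hp
    obtain ⟨l, hl1, hl2⟩ := loc p hp
    have aux : ∀ (k l : ℤ) (p p' : T × T), p ∈ P → p' ∈ P → k < l → Y p - U p < 53 / 32 + k →
        27 / 32 + l < Y p' - U p' → False := by
      intro k l p p' hp hp' hkl h1 h2
      have h3 : (k : ℝ) + 1 ≤ l := by exact_mod_cast hkl
      have h4 : (54 / 32 + k : ℝ) ∈ (fun p => Y p - U p) '' P :=
        hord.out ⟨p, hp, rfl⟩ ⟨p', hp', rfl⟩ ⟨by dsimp only; linarith, by dsimp only; linarith⟩
      obtain ⟨q, hq, hqe⟩ := h4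
      dsimp only at hqe
      obtain ⟨m, hm1, hm2⟩ := loc q hq
      rw [hqe] at hm1 hm2
      have h5 : (m : ℝ) < k + 1 := by linarith
      have h6 : (k : ℝ) < m := by linarith
      have h7 : m < k + 1 := by exact_mod_cast h5
      have h8 : k < m := by exact_mod_cast h6
      omega
    rcases lt_trichotomy k l with h | h | h
    · exact (aux k l p0 p hp0 hp h hk2 hl1).elim
    · subst h; exact ⟨hl1, hl2⟩
    · exact (aux l k p p0 hp hp0 h hl2 hk1).elim
  -- every second coordinate is a first coordinate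
  have step : ∀ q ∈ P, ∃ p ∈ P, Y p = Y q + k + U p := by
    intro q hq
    have : q.2 ∈ Prod.fst '' P := he ▸ ⟨q, hq, rfl⟩
    obtain ⟨p, hp, hp1⟩ := this
    have h1 : ((Y p - U p : ℝ) : T) = ((Y q : ℝ) : T) := by rw [coe_g, coe_Y, hp1]
    obtain ⟨m, hm⟩ := coe_eq.1 h1
    have h2 := near_bounds (hn q hq)
    have h3 := loc' p hp
    rw [hm] at h3
    have h5 : (m : ℝ) < k + 1 := by linarith
    have h6 : (k : ℝ) - 1 < m := by linarith
    have h7 : m < k + 1 := by exact_mod_cast h5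
    have h8 : k - 1 < m := by exact_mod_cast h6
    have h9 : m = k := by omega
    subst h9
    exact ⟨p, hp, by linarith⟩
  rcases le_or_gt 0 k with hk | hk
  · have hk' : (0 : ℝ) ≤ k := by exact_mod_cast hk
    obtain ⟨p1, hp1, e1⟩ := step p0 hp0
    obtain ⟨p2, hp2, e2⟩ := step p1 hp1
    have b0 := near_bounds (hn p0 hp0)
    have b1 := near_bounds (hn p1 hp1)
    have b2 := near_bounds (hn p2 hp2)
    linarith
  · have hk' : (k : ℝ) ≤ -1 := by
      have : k ≤ -1 := by omega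
      exact_mod_cast this
    have hbdd : BddBelow (Y '' P) := ⟨27 / 32, by
      rintro _ ⟨p, hp, rfl⟩
      exact (near_bounds (hn p hp)).1.le⟩
    have hne : (Y '' P).Nonempty := ⟨_, p0, hp0, rfl⟩
    obtain ⟨_, ⟨q, hq, rfl⟩, hlt⟩ :=
      exists_lt_of_csInf_lt hne (show sInf (Y '' P) < sInf (Y '' P) + 1 / 16 by linarith)
    obtain ⟨p, hp, e⟩ := step q hq
    have h1 : sInf (Y '' P) ≤ Y p := csInf_le hbdd ⟨p, hp, rfl⟩
    have b := near_bounds (hn p hp)
    linarith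

end Pool.Agent.Y171.Span
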