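import Mathlib
import Pool.Agent.Y171.Span2

set_option autoImplicit false

namespace Pool.Agent.Y171.Span

open Set Metric

theorem U_swap {p : T × T} (h : near p.swap) : U p = 1 - U p.swap := by
  have b := near_bounds h
  refine U_eq ?_ ⟨by linarith, by linarith⟩
  have h1 := coe_U p.swap
  have h2 : ((1 : ℝ) : T) = 0 := AddCircle.coe_period 1
  rw [AddCircle.coe_sub, h1, h2]
  simp

theorem near_or {p : T × T} {ε : ℝ} (hε : 1 / 2 < ε) (h : ε ≤ D p.1 p.2) :
    near p ∨ near p.swap := by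
  have h1 : 1 / 2 < 1 / 2 + ψ p.1 p.2 / 2 := (hε.trans_le h).trans_le (min_le_right _ _)
  have h2 : 0 < ψ p.1 p.2 := by linarith
  have h3 : 0 < 1 - 32 * infDist (p.1, p.2) W := by
    unfold ψ at h2
    rcases lt_max_iff.1 h2 with h4 | h4
    · exact absurd h4 (lt_irrefl _)
    · exact h4
  have h4 : infDist (p.1, p.2) W < 1 / 32 := by linarith
  obtain ⟨q, hq, hq2⟩ := (infDist_lt_iff W_ne).1 h4
  rcases hq with hq | ⟨q', hq', rfl⟩
  · exact Or.inl ⟨q, hq, hq2⟩
  · refine Or.inr ⟨q', hq', ?_⟩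
    rw [Prod.dist_eq] at hq2 ⊢
    rw [max_comm]
    simpa using hq2

theorem no_connected (P : Set (T × T)) (hc : IsConnected P) (he : Prod.fst '' P = Prod.snd '' P)
    (hn : ∀ p ∈ P, near p ∨ near p.swap) : False := by
  have hne : ∀ p ∈ P, p.1 ≠ p.2 := by
    intro p hp
    rcases hn p hp with h | h
    · exact near_ne h
    · exact (near_ne h).symm
  have cont : ContinuousOn U P := fun p hp => (contU (hne p hp)).continuousWithinAt
  have hord : OrdConnected (U '' P) := (hc.isPreconnected.image _ cont).ordConnected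
  have bd : ∀ p ∈ P, near p.swap → U p < 7 / 16 := by
    intro p _ h
    have := near_bounds h
    rw [U_swap h]; linarith
  by_cases hall : ∀ p ∈ P, near p
  · exact key P hc hall he
  push Not at hall
  obtain ⟨q, hq, hq2⟩ := hall
  have hq3 : near q.swap := (hn q hq).resolve_left hq2
  have hall2 : ∀ p ∈ P, near p.swap := by
    intro p hp
    rcases hn p hp with h | h
    · exfalso
      have h1 := (near_bounds h).2.2.1
      have h2 := bd q hq hq3
      have h3 : (1 / 2 : ℝ) ∈ U '' P :=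
        hord.out ⟨q, hq, rfl⟩ ⟨p, hp, rfl⟩ ⟨by linarith, by linarith⟩
      obtain ⟨r, hr, hr2⟩ := h3
      rcases hn r hr with h4 | h4
      · have := (near_bounds h4).2.2.1
        linarith
      · have := bd r hr h4
        linarith
    · exact h
  refine key (Prod.swap '' P) (hc.image _ continuous_swap.continuousOn) ?_ ?_
  · rintro _ ⟨p, hp, rfl⟩
    exact hall2 p hp
  · rw [← image_comp, ← image_comp]
    exact he.symm

theorem span_le (ε : ℝ) (Z' : Set (X × X)) (hc : IsConnected Z')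
    (he : Prod.fst '' Z' = Prod.snd '' Z') (hd : ∀ p ∈ Z', ε ≤ dist p.1 p.2) : ε ≤ 1 / 2 := by
  by_contra h
  push Not at h
  let f : X × X → T × T := fun p => (homeo.symm p.1, homeo.symm p.2)
  have hf : Continuous f :=
    (homeo.symm.continuous.comp continuous_fst).prodMk (homeo.symm.continuous.comp continuous_snd)
  refine no_connected (f '' Z') (hc.image _ hf.continuousOn) ?_ ?_
  · rw [← image_comp, ← image_comp]
    have e1 : Prod.fst ∘ f = homeo.symm ∘ Prod.fst := rfl
    have e2 : Prod.snd ∘ f = homeo.symm ∘ Prod.snd := rfl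
    rw [e1, e2, image_comp, image_comp, he]
  · rintro _ ⟨p, hp, rfl⟩
    exact near_or h (hd p hp)

theorem main_neg :
    ¬ (∀ (X : Type) [MetricSpace X] (C : Set X),
      Nonempty (↥C ≃ₜ ↥(Metric.sphere (0 : ℂ) 1)) →
      sSup {ε : ℝ | ∃ Z : Set (X × X), Z ⊆ C ×ˢ C ∧ IsConnected Z ∧
          Prod.fst '' Z = Prod.snd '' Z ∧ ∀ p ∈ Z, ε ≤ dist p.1 p.2}
        = sSup {ε : ℝ | ∃ Z : Set (X × X), Z ⊆ C ×ˢ C ∧ IsConnected Z ∧
          Prod.snd '' Z ⊆ Prod.fst '' Z ∧ ∀ p ∈ Z, ε ≤ dist p.1 p.2}) := by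
  intro H
  have hh : Nonempty (↥(univ : Set X) ≃ₜ ↥(Metric.sphere (0 : ℂ) 1)) := by
    refine ⟨(Homeomorph.Set.univ X).trans (homeo.symm.trans
      ((AddCircle.homeomorphCircle (T := (1 : ℝ)) one_ne_zero).trans ?_))⟩
    exact
      { toFun := fun z => ⟨(z : ℂ), by rw [mem_sphere_zero_iff_norm]; exact Circle.norm_coe z⟩
        invFun := fun z => ⟨(z : ℂ), z.2⟩
        left_inv := fun z => by ext; rfl
        right_inv := fun z => by ext; rfl
        continuous_toFun := by
          refine Continuous.subtype_mk ?_ _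
          exact continuous_subtype_val
        continuous_invFun := by
          refine Continuous.subtype_mk ?_ _
          exact continuous_subtype_val }
  have h1 := H X univ hh
  have h2 : sSup {ε : ℝ | ∃ Z : Set (X × X), Z ⊆ univ ×ˢ univ ∧ IsConnected Z ∧
          Prod.fst '' Z = Prod.snd '' Z ∧ ∀ p ∈ Z, ε ≤ dist p.1 p.2} ≤ 1 / 2 := by
    refine Real.sSup_le ?_ (by norm_num)
    rintro ε ⟨Z', _, hc, he, hd⟩
    exact span_le ε Z' hc he hd
  have h3 : 1 ≤ sSup {ε : ℝ | ∃ Z : Set (X × X), Z ⊆ univ ×ˢ univ ∧ IsConnected Z ∧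
          Prod.snd '' Z ⊆ Prod.fst '' Z ∧ ∀ p ∈ Z, ε ≤ dist p.1 p.2} := by
    refine le_csSup ⟨1, ?_⟩ ?_
    · rintro ε ⟨Z', _, hc, he, hd⟩
      obtain ⟨p, hp⟩ := hc.nonempty
      exact (hd p hp).trans (D_le_one _ _)
    · refine ⟨Z1, by simp, Z1_conn, ?_, Z1_dist⟩
      rw [Z1_fst]; exact subset_univ _
  rw [h1] at h2
  linarith

end Pool.Agent.Y171.Span
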