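import Pool.Agent.Y171.Precut

set_option autoImplicit false

/-!
Random walks on finite groups with a precut-off and without a cut-off: the family.
-/

namespace Pool.Agent.Y171.Precut

open Finset Filter Topology

instance (n : ℕ) : NeZero (4 ^ n : ℕ) := ⟨by positivity⟩

/-- the group: `2 ^ n` coordinates in the cyclic group of order `4 ^ n` -/
abbrev Gr (n : ℕ) : Type := Fin (2 ^ n) → Multiplicative (ZMod (4 ^ n))

/-- probability of not using the uniform measure -/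
noncomputable def xx (n : ℕ) : ℝ := 1 - 1 / (2 * (n + 1))

/-- the increment law -/
noncomputable def pp (n : ℕ) (g : Gr n) : ℝ := P (xx n) (1 / 2) g

/-- the distance to uniform at time `k` -/
noncomputable def dd (n k : ℕ) : ℝ := xx n ^ k * D (Multiplicative (ZMod (4 ^ n))) (2 ^ n) ((1 / 2) ^ k)

lemma xx_nonneg (n : ℕ) : 0 ≤ xx n := by
  unfold xx
  have h : (0 : ℝ) ≤ n := Nat.cast_nonneg n
  rw [sub_nonneg, div_le_one (by linarith)]
  linarith

lemma xx_le_one (n : ℕ) : xx n ≤ 1 := by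
  unfold xx
  have h : (0 : ℝ) ≤ n := Nat.cast_nonneg n
  have : 0 ≤ 1 / (2 * ((n : ℝ) + 1)) := by positivity
  linarith

lemma card_A (n : ℕ) : (Fintype.card (Multiplicative (ZMod (4 ^ n))) : ℝ) = 4 ^ n := by
  rw [Fintype.card_multiplicative, ZMod.card]
  push_cast
  ring

lemma half_pow_nonneg (k : ℕ) : (0 : ℝ) ≤ (1 / 2) ^ k := by positivity

lemma half_pow_le_one (k : ℕ) : ((1 : ℝ) / 2) ^ k ≤ 1 := pow_le_one₀ (by norm_num) (by norm_num)

lemma D_nonneg (A : Type) [Group A] [Fintype A] [DecidableEq A] (m : ℕ) (r : ℝ) : 0 ≤ D A m r := by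
  unfold D
  positivity

lemma dd_nonneg (n k : ℕ) : 0 ≤ dd n k :=
  mul_nonneg (pow_nonneg (xx_nonneg n) k) (D_nonneg _ _ _)

/-- for `k ≥ 2 n` the walk is close to uniform -/
lemma dd_le (n : ℕ) : dd n (2 * n) ≤ (1 / 2) ^ n := by
  unfold dd
  have h1 := D_le_mul (A := Multiplicative (ZMod (4 ^ n))) (m := 2 ^ n) (half_pow_nonneg (2 * n))
    (half_pow_le_one (2 * n))
  have h2 : xx n ^ (2 * n) ≤ 1 := pow_le_one₀ (xx_nonneg n) (xx_le_one n)
  have h3 : ((2 ^ n : ℕ) : ℝ) * (1 / 2) ^ (2 * n) = (1 / 2) ^ n := by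
    rw [pow_mul', sq]
    push_cast
    rw [← mul_assoc, ← mul_pow]
    norm_num
  rw [h3] at h1
  calc xx n ^ (2 * n) * D (Multiplicative (ZMod (4 ^ n))) (2 ^ n) ((1 / 2) ^ (2 * n))
      ≤ 1 * (1 / 2) ^ n := mul_le_mul h2 h1 (D_nonneg _ _ _) (by norm_num)
    _ = _ := one_mul _

lemma dd_le_pow (n k : ℕ) : dd n k ≤ xx n ^ k := by
  unfold dd
  calc xx n ^ k * D (Multiplicative (ZMod (4 ^ n))) (2 ^ n) ((1 / 2) ^ k) ≤ xx n ^ k * 1 := by
        apply mul_le_mul_of_nonneg_left _ (pow_nonneg (xx_nonneg n) k)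
        exact D_le_one (half_pow_nonneg k) (half_pow_le_one k)
    _ = _ := mul_one _

/-- `(1 - x)^M ≤ 1 / (1 + M x)` -/
lemma one_sub_pow_le (x : ℝ) (h0 : 0 ≤ x) (h1 : x ≤ 1) (M : ℕ) :
    (1 - x) ^ M * (1 + M * x) ≤ 1 := by
  have h2 : 1 + M * x ≤ (1 + x) ^ M := one_add_mul_le_pow (by linarith) M
  calc (1 - x) ^ M * (1 + M * x) ≤ (1 - x) ^ M * (1 + x) ^ M := by
        apply mul_le_mul_of_nonneg_left h2 (pow_nonneg (by linarith) M)
    _ = ((1 - x) * (1 + x)) ^ M := by rw [mul_pow]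
    _ ≤ 1 := pow_le_one₀ (by nlinarith) (by nlinarith)

/-- before time `n` the walk is far from uniform -/
lemma le_dd (n k : ℕ) (hn : 2 ≤ n) (hk : k + 1 ≤ n) : 1 / 8 ≤ dd n k := by
  unfold dd
  have h1 := le_D (A := Multiplicative (ZMod (4 ^ n))) (m := 2 ^ n) (half_pow_nonneg k)
    (half_pow_le_one k)
  rw [card_A] at h1
  have h2 : 3 / 4 ≤ (1 - 1 / (4 : ℝ) ^ n) ^ (2 ^ n) := by
    have h3 : (1 : ℝ) / 4 ^ n ≤ 1 := by
      rw [div_le_one (by positivity)]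
      exact one_le_pow₀ (by norm_num)
    have h4 := one_add_mul_le_pow (show (-2 : ℝ) ≤ -(1 / 4 ^ n) by linarith) (2 ^ n)
    have h5 : (1 + -(1 / (4 : ℝ) ^ n)) = 1 - 1 / 4 ^ n := by ring
    rw [h5] at h4
    have h6 : ((2 ^ n : ℕ) : ℝ) * -(1 / 4 ^ n) = - (1 / 2) ^ n := by
      push_cast
      rw [show (4 : ℝ) = 2 * 2 by norm_num, mul_pow, one_div, mul_inv, one_div, inv_pow]
      field_simp
    rw [h6] at h4
    have h7 : ((1 : ℝ) / 2) ^ n ≤ (1 / 2) ^ 2 :=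
      pow_le_pow_of_le_one (by norm_num) (by norm_num) hn
    have h8 : ((1 : ℝ) / 2) ^ 2 = 1 / 4 := by norm_num
    linarith
  have h3 : (1 - ((1 : ℝ) / 2) ^ k) ^ (2 ^ n) ≤ 1 / 3 := by
    have h4 := one_sub_pow_le ((1 / 2) ^ k) (half_pow_nonneg k) (half_pow_le_one k) (2 ^ n)
    have h5 : 2 ≤ ((2 ^ n : ℕ) : ℝ) * (1 / 2) ^ k := by
      have h6 : (2 : ℝ) ^ n = 2 ^ (n - k) * 2 ^ k := by rw [← pow_add]; congr 1; omega
      push_cast
      rw [h6, mul_assoc, ← mul_pow]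
      norm_num
      calc (2 : ℝ) = 2 ^ 1 := by norm_num
        _ ≤ 2 ^ (n - k) := pow_le_pow_right₀ (by norm_num) (by omega)
    have h6 : 0 ≤ (1 - ((1 : ℝ) / 2) ^ k) ^ (2 ^ n) := by
      apply pow_nonneg
      have := half_pow_le_one k
      linarith
    nlinarith
  have h4 : 1 / 4 ≤ D (Multiplicative (ZMod (4 ^ n))) (2 ^ n) ((1 / 2) ^ k) := by linarith
  have h5 : 1 / 2 ≤ xx n ^ k := by
    unfold xx
    have hn0 : (0 : ℝ) < (n : ℝ) + 1 := by positivity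
    have h6 : (-2 : ℝ) ≤ -(1 / (2 * ((n : ℝ) + 1))) := by
      have : 1 / (2 * ((n : ℝ) + 1)) ≤ 1 := by
        rw [div_le_one (by linarith)]
        have : (0 : ℝ) ≤ n := Nat.cast_nonneg n
        linarith
      linarith
    have h7 := one_add_mul_le_pow h6 k
    have h8 : (1 + -(1 / (2 * ((n : ℝ) + 1)))) = 1 - 1 / (2 * ((n : ℝ) + 1)) := by ring
    rw [h8] at h7
    have h9 : (k : ℝ) * (1 / (2 * ((n : ℝ) + 1))) ≤ 1 / 2 := by
      rw [mul_one_div, div_le_iff₀ (by linarith)]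
      have : (k : ℝ) + 1 ≤ n := by exact_mod_cast hk
      linarith
    linarith
  calc (1 : ℝ) / 8 = 1 / 2 * (1 / 4) := by norm_num
    _ ≤ _ := mul_le_mul h5 h4 (by norm_num) (by linarith)

/-- at a time of order `n` the distance is bounded away from one -/
lemma dd_le_frac (n k : ℕ) (hk : (n : ℝ) + 1 ≤ 8 * k) : dd n k ≤ 16 / 17 := by
  refine (dd_le_pow n k).trans ?_
  have hn0 : (0 : ℝ) < (n : ℝ) + 1 := by positivity
  have h1 := one_sub_pow_le (1 / (2 * ((n : ℝ) + 1))) (by positivity) (by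
    rw [div_le_one (by linarith)]
    have : (0 : ℝ) ≤ n := Nat.cast_nonneg n
    linarith) k
  have h2 : xx n = 1 - 1 / (2 * ((n : ℝ) + 1)) := rfl
  rw [← h2] at h1
  have h3 : (1 : ℝ) / 16 ≤ k * (1 / (2 * ((n : ℝ) + 1))) := by
    rw [mul_one_div, le_div_iff₀ (by linarith)]
    linarith
  have h4 : 0 ≤ xx n ^ k := pow_nonneg (xx_nonneg n) k
  nlinarith

end Pool.Agent.Y171.Precut
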