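import Pool.Agent.Helper848.AztecDet

set_option autoImplicit false

/-!
Closed forms for the four Green function entries near the centre of the Aztec diamond.
-/

namespace Pool.Agent.Y171.Az

open Polynomial Finset

/-- central binomial coefficient -/
noncomputable def cb (n : ℕ) : ℚ := (Nat.centralBinom n : ℚ)

lemma cb_pos (n : ℕ) : 0 < cb n := by
  unfold cb; exact_mod_cast Nat.centralBinom_pos n

lemma cb_zero : cb 0 = 1 := by simp [cb]

lemma cb_succ (n : ℕ) : ((n : ℚ) + 1) * cb (n + 1) = 2 * (2 * n + 1) * cb n := by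
  unfold cb
  exact_mod_cast Nat.succ_mul_centralBinom_succ n

/-- super Catalan number -/
noncomputable def S (i j : ℕ) : ℚ := cb i * cb j / ((i + j).choose i : ℚ)

lemma S_zero (j : ℕ) : S 0 j = cb j := by
  simp [S, cb_zero]

lemma choose_pos' (i j : ℕ) : (0 : ℚ) < ((i + j).choose i : ℚ) := by
  exact_mod_cast Nat.choose_pos (Nat.le_add_right i j)

lemma S_succ_left (i j : ℕ) : ((i : ℚ) + j + 1) * S (i + 1) j = 2 * (2 * i + 1) * S i j := by
  have h1 := cb_succ i
  have h2 : (i + j + 1) * (i + j).choose i = (i + 1 + j).choose (i + 1) * (i + 1) := by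
    have := Nat.add_one_mul_choose_eq (i + j) i
    rw [show i + 1 + j = i + j + 1 by ring]
    exact this
  have h2' : ((i : ℚ) + j + 1) * ((i + j).choose i : ℚ) = ((i + 1 + j).choose (i + 1) : ℚ) * (i + 1) := by
    exact_mod_cast h2
  have h3 := choose_pos' i j
  have h4 := choose_pos' (i + 1) j
  have h5 : (0 : ℚ) < i + 1 := by positivity
  unfold S
  rw [← mul_div_assoc, ← mul_div_assoc, div_eq_div_iff h4.ne' h3.ne']
  have e1 : ((i : ℚ) + 1) * (((i : ℚ) + j + 1) * (cb (i + 1) * cb j) * ((i + j).choose i : ℚ)) =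
      ((i : ℚ) + 1) * (2 * (2 * i + 1) * (cb i * cb j) * ((i + 1 + j).choose (i + 1) : ℚ)) := by
    calc ((i : ℚ) + 1) * (((i : ℚ) + j + 1) * (cb (i + 1) * cb j) * ((i + j).choose i : ℚ))
        = (((i : ℚ) + 1) * cb (i + 1)) * cb j * (((i : ℚ) + j + 1) * ((i + j).choose i : ℚ)) := by
          ring
      _ = _ := by rw [h1, h2']; ring
  exact mul_left_cancel₀ h5.ne' e1

lemma S_comm (i j : ℕ) : S i j = S j i := by
  unfold S
  rw [mul_comm (cb i)]
  congr 2
  rw [Nat.add_comm j i]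
  exact Nat.choose_symm_add

lemma S_succ_right (i j : ℕ) : ((i : ℚ) + j + 1) * S i (j + 1) = 2 * (2 * j + 1) * S i j := by
  have := S_succ_left j i
  rw [S_comm i (j + 1), S_comm i j, ← this]
  ring

lemma S_rec (i j : ℕ) : S (i + 1) j = 4 * S i j - S i (j + 1) := by
  have h1 := S_succ_left i j
  have h2 := S_succ_right i j
  have h3 : (0 : ℚ) < (i : ℚ) + j + 1 := by positivity
  apply mul_left_cancel₀ h3.ne'
  rw [mul_sub, h1, h2]
  ring

/-- the coefficient of `X^(i+j+c)` in `(1+X)^(2j+a) (1-X)^(2i+b)` -/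
noncomputable def co (a b c i j : ℕ) : ℚ :=
  ((1 + X) ^ (2 * j + a) * (1 - X) ^ (2 * i + b) : ℚ[X]).coeff (i + j + c)

lemma co_rec (a b c i j : ℕ) : co a b c (i + 1) j = co a b c i (j + 1) - 4 * co a b c i j := by
  unfold co
  have h1 : ((1 + X) ^ (2 * j + a) * (1 - X) ^ (2 * (i + 1) + b) : ℚ[X]) =
      (1 + X) ^ (2 * (j + 1) + a) * (1 - X) ^ (2 * i + b) -
      X * (C 4 * ((1 + X) ^ (2 * j + a) * (1 - X) ^ (2 * i + b))) := by
    have : (C 4 : ℚ[X]) = 4 := map_ofNat C 4
    rw [this]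
    ring
  rw [h1, coeff_sub, show i + 1 + j + c = (i + j + c) + 1 by ring, coeff_X_mul, coeff_C_mul,
    show i + (j + 1) + c = (i + j + c) + 1 by ring]

lemma rec_unique (F G : ℕ → ℕ → ℚ) (h0 : ∀ j, F 0 j = G 0 j)
    (hF : ∀ i j, F (i + 1) j = F i (j + 1) - 4 * F i j)
    (hG : ∀ i j, G (i + 1) j = G i (j + 1) - 4 * G i j) (i j : ℕ) : F i j = G i j := by
  induction i generalizing j with
  | zero => exact h0 j
  | succ i ih => rw [hF, hG, ih, ih]

lemma coeff_one_add (m k : ℕ) : ((1 + X) ^ m : ℚ[X]).coeff k = (m.choose k : ℚ) :=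
  coeff_one_add_X_pow ℚ m k

lemma coA (i j : ℕ) : co 0 0 0 i j = (-1) ^ i * S i j := by
  refine rec_unique (co 0 0 0) (fun i j => (-1) ^ i * S i j) ?_ (co_rec 0 0 0) ?_ i j
  · intro j
    unfold co
    simp only [mul_zero, add_zero, pow_zero, mul_one, zero_add, one_mul]
    rw [coeff_one_add, S_zero]
    rfl
  · intro i j
    rw [S_rec]
    ring

lemma coB1 (i j : ℕ) : 2 * co 1 0 1 i j = (-1) ^ i * S i (j + 1) := by
  refine rec_unique (fun i j => 2 * co 1 0 1 i j) (fun i j => (-1) ^ i * S i (j + 1)) ?_ ?_ ?_ i j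
  · intro j
    unfold co
    simp only [mul_zero, add_zero, pow_zero, mul_one, zero_add, one_mul]
    rw [coeff_one_add, S_zero]
    have h1 : (j + 1) * (2 * j + 1).choose (j + 1) = (j + 1) * (2 * j + 1).choose j := by
      rw [Nat.choose_symm_half]
    have h2 : Nat.centralBinom (j + 1) = 2 * (2 * j + 1).choose (j + 1) := by
      rw [Nat.centralBinom_eq_two_mul_choose, show 2 * (j + 1) = (2 * j + 1) + 1 by ring,
        Nat.choose_succ_succ, Nat.choose_symm_half]
      ring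
    unfold cb
    rw [h2]
    push_cast
    ring
  · intro i j
    rw [co_rec]
    ring
  · intro i j
    rw [S_rec]
    ring

lemma coB2 (i j : ℕ) : 2 * co 0 1 1 i j = (-1) ^ (i + 1) * S (i + 1) j := by
  refine rec_unique (fun i j => 2 * co 0 1 1 i j) (fun i j => (-1) ^ (i + 1) * S (i + 1) j)
    ?_ ?_ ?_ i j
  · intro j
    unfold co
    simp only [mul_zero, add_zero, pow_zero, mul_one, zero_add, one_mul, pow_one]
    have h0 : ((1 + X) ^ (2 * j) * (1 - X) : ℚ[X]) = (1 + X) ^ (2 * j) - X * (1 + X) ^ (2 * j) := by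
      ring
    rw [h0, coeff_sub, coeff_X_mul, coeff_one_add, coeff_one_add]
    have h1 : (2 * j).choose (j + 1) * (j + 1) = (2 * j).choose j * (2 * j - j) :=
      Nat.choose_succ_right_eq (2 * j) j
    have h2 : 2 * j - j = j := by omega
    rw [h2] at h1
    have h1' : ((2 * j).choose (j + 1) : ℚ) * ((j : ℚ) + 1) = ((2 * j).choose j : ℚ) * j := by
      exact_mod_cast h1
    have h3 := S_succ_left 0 j
    rw [S_zero] at h3
    simp only [Nat.cast_zero, zero_add, mul_zero, mul_one] at h3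
    have h4 : cb j = ((2 * j).choose j : ℚ) := by unfold cb; rw [Nat.centralBinom_eq_two_mul_choose]
    have h5 : (0 : ℚ) < (j : ℚ) + 1 := by positivity
    apply mul_left_cancel₀ h5.ne'
    rw [h4] at h3
    linear_combination 2 * h1' + h3
  · intro i j
    rw [co_rec]
    ring
  · intro i j
    rw [S_rec (i + 1) j]
    ring

lemma coB3 (i j : ℕ) : co 1 1 1 i j = 0 := by
  refine rec_unique (co 1 1 1) (fun _ _ => 0) ?_ (co_rec 1 1 1) ?_ i j
  · intro j
    unfold co
    simp only [mul_zero, add_zero, pow_zero, mul_one, zero_add, one_mul, pow_one]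
    have h0 : ((1 + X) ^ (2 * j + 1) * (1 - X) : ℚ[X]) =
        (1 + X) ^ (2 * j + 1) - X * (1 + X) ^ (2 * j + 1) := by
      ring
    rw [h0, coeff_sub, coeff_X_mul, coeff_one_add, coeff_one_add, Nat.choose_symm_half, sub_self]
  · intro i j
    norm_num

/-- `D h j = binom(2j,j) binom(2(h-j),h-j)` -/
noncomputable def D (h j : ℕ) : ℚ := cb j * cb (h - j)

lemma choose_mul_S (h j : ℕ) (hj : j ≤ h) : (h.choose j : ℚ) * S (h - j) j = D h j := by
  unfold S D
  rw [Nat.sub_add_cancel hj]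
  have h1 : (h.choose (h - j) : ℚ) = h.choose j := by rw [Nat.choose_symm hj]
  rw [h1]
  have h2 : (0 : ℚ) < h.choose j := by exact_mod_cast Nat.choose_pos hj
  field_simp

/-- `sum over j of D h j` is `4^h` -/
lemma sum_D (h : ℕ) : ∑ j ∈ range (h + 1), D h j = 4 ^ h := by
  have h1 : ((1 + X) ^ 2 + (-(1 - X) ^ 2) : ℚ[X]) ^ h = C (4 ^ h) * X ^ h := by
    have : ((1 + X) ^ 2 + (-(1 - X) ^ 2) : ℚ[X]) = C 4 * X := by
      have : (C 4 : ℚ[X]) = 4 := map_ofNat C 4
      rw [this]; ring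
    rw [this, mul_pow, ← C_pow]
  rw [add_pow] at h1
  have h2 := congrArg (fun p : ℚ[X] => p.coeff h) h1
  beta_reduce at h2
  rw [coeff_C_mul, coeff_X_pow, if_pos rfl, mul_one, finsetSum_coeff] at h2
  rw [← h2]
  apply Finset.sum_congr rfl
  intro j hj
  rw [mem_range] at hj
  have h3 : (((1 + X) ^ 2) ^ j * (-(1 - X) ^ 2) ^ (h - j) * (h.choose j : ℚ[X]) : ℚ[X]) =
      C ((-1) ^ (h - j) * (h.choose j : ℚ)) *
      ((1 + X) ^ (2 * j + 0) * (1 - X) ^ (2 * (h - j) + 0)) := by
    rw [C_mul, C_pow, C_neg, C_1, map_natCast, neg_pow, ← pow_mul, ← pow_mul]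
    ring
  rw [h3, coeff_C_mul]
  have h4 := coA (h - j) j
  unfold co at h4
  rw [show h - j + j + 0 = h by omega] at h4
  rw [h4, ← choose_mul_S h j (by omega)]
  have h5 : ((-1 : ℚ) ^ (h - j)) * (-1) ^ (h - j) = 1 := by
    rw [← mul_pow]; norm_num
  linear_combination (-(h.choose j : ℚ) * S (h - j) j) * h5

end Pool.Agent.Y171.Az
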