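import Pool.Agent.Y171.Az1

set_option autoImplicit false

/-!
The four Green function entries as sums, and their closed forms.
-/

namespace Pool.Agent.Y171.Az

open Polynomial Finset Pool.Agent.Helper848.AztecDet

lemma sum_Ico_even {M : Type*} [AddCommMonoid M] (f : ℕ → M) (a b : ℕ)
    (hf : ∀ k, a ≤ k → k < b → k % 2 = 1 → f k = 0) :
    ∑ k ∈ Ico a b, f k = ∑ j ∈ Ico ((a + 1) / 2) ((b + 1) / 2), f (2 * j) := by
  have h1 : ∑ j ∈ Ico ((a + 1) / 2) ((b + 1) / 2), f (2 * j) =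
      ∑ k ∈ (Ico ((a + 1) / 2) ((b + 1) / 2)).image (fun j => 2 * j), f k := by
    rw [Finset.sum_image]
    intro x _ y _ hxy
    simp only at hxy
    omega
  rw [h1]
  symm
  apply Finset.sum_subset
  · intro k hk
    rw [mem_image] at hk
    obtain ⟨j, hj, rfl⟩ := hk
    rw [mem_Ico] at hj ⊢
    omega
  · intro k hk hk2
    rw [mem_Ico] at hk
    apply hf k hk.1 hk.2
    by_contra hodd
    apply hk2
    rw [mem_image]
    refine ⟨k / 2, ?_, ?_⟩
    · rw [mem_Ico]; omega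
    · omega

lemma sum_Ico_odd {M : Type*} [AddCommMonoid M] (f : ℕ → M) (a b : ℕ)
    (hf : ∀ k, a ≤ k → k < b → k % 2 = 0 → f k = 0) :
    ∑ k ∈ Ico a b, f k = ∑ j ∈ Ico (a / 2) (b / 2), f (2 * j + 1) := by
  have h1 : ∑ j ∈ Ico (a / 2) (b / 2), f (2 * j + 1) =
      ∑ k ∈ (Ico (a / 2) (b / 2)).image (fun j => 2 * j + 1), f k := by
    rw [Finset.sum_image]
    intro x _ y _ hxy
    simp only at hxy
    omega
  rw [h1]
  symm
  apply Finset.sum_subset
  · intro k hk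
    rw [mem_image] at hk
    obtain ⟨j, hj, rfl⟩ := hk
    rw [mem_Ico] at hj ⊢
    omega
  · intro k hk hk2
    rw [mem_Ico] at hk
    apply hf k hk.1 hk.2
    by_contra hodd
    apply hk2
    rw [mem_image]
    refine ⟨k / 2, ?_, ?_⟩
    · rw [mem_Ico]; omega
    · omega

lemma sum_range_pairs {M : Type*} [AddCommMonoid M] (f : ℕ → M) (m : ℕ) :
    ∑ k ∈ range (2 * m), f k = ∑ j ∈ range m, (f (2 * j) + f (2 * j + 1)) := by
  induction m with
  | zero => simp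
  | succ m ih =>
    rw [show 2 * (m + 1) = 2 * m + 1 + 1 by ring, sum_range_succ, sum_range_succ, ih,
      sum_range_succ, add_assoc]

/-- Krawtchouk coefficients of `X^h`, even case -/
noncomputable def gE (h k : ℕ) : ℚ :=
  if k % 2 = 0 then (-1) ^ (h - k / 2) * (h.choose (k / 2) : ℚ) / 4 ^ h else 0

/-- Krawtchouk coefficients of `X^(h+1)`, odd case -/
noncomputable def gO (h k : ℕ) : ℚ :=
  (if k % 2 = 0 then -1 else 1) * ((-1) ^ (h - k / 2) * (h.choose (k / 2) : ℚ)) / (2 * 4 ^ h)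

lemma gE_even (h j : ℕ) : gE h (2 * j) = (-1) ^ (h - j) * (h.choose j : ℚ) / 4 ^ h := by
  unfold gE
  rw [if_pos (by omega), show 2 * j / 2 = j by omega]

lemma gO_even (h j : ℕ) : gO h (2 * j) = - ((-1) ^ (h - j) * (h.choose j : ℚ) / (2 * 4 ^ h)) := by
  unfold gO
  rw [if_pos (by omega), show 2 * j / 2 = j by omega]
  ring

lemma gO_odd (h j : ℕ) : gO h (2 * j + 1) = (-1) ^ (h - j) * (h.choose j : ℚ) / (2 * 4 ^ h) := by
  unfold gO
  rw [if_neg (by omega), show (2 * j + 1) / 2 = j by omega]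
  ring

lemma binom_id (h : ℕ) :
    ∑ j ∈ range (h + 1), C ((-1) ^ (h - j) * (h.choose j : ℚ) / 4 ^ h) *
      ((1 + X) ^ (2 * j) * (1 - X) ^ (2 * (h - j)) : ℚ[X]) = X ^ h := by
  have h1 : ((1 + X) ^ 2 + (-(1 - X) ^ 2) : ℚ[X]) ^ h = C (4 ^ h) * X ^ h := by
    have : ((1 + X) ^ 2 + (-(1 - X) ^ 2) : ℚ[X]) = C 4 * X := by
      have : (C 4 : ℚ[X]) = 4 := map_ofNat C 4
      rw [this]; ring
    rw [this, mul_pow, ← C_pow]
  rw [add_pow] at h1
  have h2 : (C (1 / 4 ^ h) * (C (4 ^ h) * X ^ h) : ℚ[X]) = X ^ h := by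
    rw [← mul_assoc, ← C_mul]
    have : (1 / 4 ^ h * 4 ^ h : ℚ) = 1 := by field_simp
    rw [this, C_1, one_mul]
  rw [← h2, ← h1, Finset.mul_sum]
  apply Finset.sum_congr rfl
  intro j _
  have h3 : (((1 + X) ^ 2) ^ j * (-(1 - X) ^ 2) ^ (h - j) * (h.choose j : ℚ[X]) : ℚ[X]) =
      C ((-1) ^ (h - j) * (h.choose j : ℚ)) *
      ((1 + X) ^ (2 * j) * (1 - X) ^ (2 * (h - j))) := by
    rw [C_mul, C_pow, C_neg, C_1, map_natCast, neg_pow, ← pow_mul, ← pow_mul]
    ring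
  rw [h3, ← mul_assoc (C (1 / 4 ^ h : ℚ)), ← C_mul]
  congr 2
  ring

lemma hgE (h : ℕ) : ∑ k ∈ range (2 * h + 1), C (gE h k) *
    ((1 + X) ^ k * (1 - X) ^ (2 * h - k) : ℚ[X]) = X ^ h := by
  rw [range_eq_Ico, sum_Ico_even]
  · rw [← binom_id h, range_eq_Ico, show (0 + 1) / 2 = 0 by norm_num,
      show (2 * h + 1 + 1) / 2 = h + 1 by omega]
    apply Finset.sum_congr rfl
    intro j hj
    rw [mem_Ico] at hj
    rw [gE_even, show 2 * h - 2 * j = 2 * (h - j) by omega]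
  · intro k _ _ hk
    unfold gE
    rw [if_neg (by omega), C_0, zero_mul]

lemma hgO (h : ℕ) : ∑ k ∈ range (2 * h + 1 + 1), C (gO h k) *
    ((1 + X) ^ k * (1 - X) ^ (2 * h + 1 - k) : ℚ[X]) = X ^ (h + 1) := by
  rw [show 2 * h + 1 + 1 = 2 * (h + 1) by ring, sum_range_pairs, pow_succ', ← binom_id h,
    Finset.mul_sum]
  apply Finset.sum_congr rfl
  intro j hj
  rw [mem_range] at hj
  rw [gO_even, gO_odd, show 2 * h + 1 - 2 * j = 2 * (h - j) + 1 by omega,
    show 2 * h + 1 - (2 * j + 1) = 2 * (h - j) by omega]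
  have h1 : ((-1) ^ (h - j) * (h.choose j : ℚ) / (2 * 4 ^ h)) =
      (-1) ^ (h - j) * (h.choose j : ℚ) / 4 ^ h * (1 / 2) := by ring
  rw [h1, C_neg, C_mul]
  have h2 : (C (1 / 2) * 2 : ℚ[X]) = 1 := by
    rw [show (2 : ℚ[X]) = C 2 from (map_ofNat C 2).symm, ← C_mul]
    norm_num
  linear_combination (X * C ((-1) ^ (h - j) * (h.choose j : ℚ) / 4 ^ h) *
    ((1 + X) ^ (2 * j) * (1 - X) ^ (2 * (h - j)))) * h2

lemma sgn_sq (k : ℕ) : ((-1 : ℚ) ^ k) * (-1) ^ k = 1 := by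
  rw [← mul_pow]; norm_num

lemma cfA (h j : ℕ) (hj : j ≤ h) :
    (-1) ^ (h - j) * (h.choose j : ℚ) * ((1 + X) ^ (2 * j) * (1 - X) ^ (2 * (h - j)) : ℚ[X]).coeff h =
    D h j := by
  have h1 := coA (h - j) j
  unfold co at h1
  rw [show h - j + j + 0 = h by omega] at h1
  simp only [add_zero] at h1
  rw [h1, ← choose_mul_S h j hj]
  linear_combination ((h.choose j : ℚ) * S (h - j) j) * sgn_sq (h - j)

lemma cfB1 (h j : ℕ) (hj : j + 1 ≤ h) :
    (-1) ^ (h - (j + 1)) * (h.choose (j + 1) : ℚ) *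
      ((1 + X) ^ (2 * j + 1) * (1 - X) ^ (2 * (h - (j + 1))) : ℚ[X]).coeff h =
    D h (j + 1) / 2 := by
  have h1 := coB1 (h - (j + 1)) j
  unfold co at h1
  rw [show h - (j + 1) + j + 1 = h by omega] at h1
  simp only [add_zero] at h1
  rw [← choose_mul_S h (j + 1) hj]
  linear_combination ((-1) ^ (h - (j + 1)) * (h.choose (j + 1) : ℚ) / 2) * h1 +
    ((h.choose (j + 1) : ℚ) * S (h - (j + 1)) (j + 1) / 2) * sgn_sq (h - (j + 1))

lemma cfB2 (h j : ℕ) (hj : j + 1 ≤ h) :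
    (-1) ^ (h - j) * (h.choose j : ℚ) *
      ((1 + X) ^ (2 * j) * (1 - X) ^ (2 * (h - j) - 1) : ℚ[X]).coeff h =
    D h j / 2 := by
  have h1 := coB2 (h - j - 1) j
  unfold co at h1
  rw [show h - j - 1 + j + 1 = h by omega, show h - j - 1 + 1 = h - j by omega,
    show 2 * (h - j - 1) + 1 = 2 * (h - j) - 1 by omega] at h1
  simp only [add_zero] at h1
  rw [← choose_mul_S h j (by omega)]
  linear_combination ((-1) ^ (h - j) * (h.choose j : ℚ) / 2) * h1 +
    ((h.choose j : ℚ) * S (h - j) j / 2) * sgn_sq (h - j)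

lemma cfB3 (h j : ℕ) (hj : j + 1 ≤ h) :
    ((1 + X) ^ (2 * j + 1) * (1 - X) ^ (2 * (h - j) - 1) : ℚ[X]).coeff h = 0 := by
  have h1 := coB3 (h - j - 1) j
  unfold co at h1
  rw [show h - j - 1 + j + 1 = h by omega,
    show 2 * (h - j - 1) + 1 = 2 * (h - j) - 1 by omega] at h1
  exact h1

/-- sum over `2 j < h` -/
noncomputable def W1 (h : ℕ) : ℚ := ∑ j ∈ range ((h + 1) / 2), D h j

/-- sum over `2 j ≤ h` -/
noncomputable def W2 (h : ℕ) : ℚ := ∑ j ∈ range (h / 2 + 1), D h j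

lemma D_symm (h j : ℕ) (hj : j ≤ h) : D h (h - j) = D h j := by
  unfold D
  rw [Nat.sub_sub_self hj, mul_comm]

lemma W1_eq (h : ℕ) : ∑ j ∈ Ico (h / 2 + 1) (h + 1), D h j = W1 h := by
  unfold W1
  apply Finset.sum_nbij' (fun j => h - j) (fun j => h - j)
  · intro j hj
    rw [mem_Ico] at hj
    rw [mem_range]; omega
  · intro j hj
    rw [mem_range] at hj
    rw [mem_Ico]; omega
  · intro j hj
    rw [mem_Ico] at hj
    omega
  · intro j hj
    rw [mem_range] at hj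
    omega
  · intro j hj
    rw [mem_Ico] at hj
    rw [D_symm h j (by omega)]

lemma W_add (h : ℕ) : W1 h + W2 h = 4 ^ h := by
  rw [← W1_eq, ← sum_D h, W2, add_comm]
  exact Finset.sum_range_add_sum_Ico _ (by omega)

lemma W2_eq (h : ℕ) : ∑ j ∈ Ico ((h + 1) / 2) (h + 1), D h j = W2 h := by
  have h1 := Finset.sum_range_add_sum_Ico (D h) (show (h + 1) / 2 ≤ h + 1 by omega)
  rw [sum_D h] at h1
  have h2 := W_add h
  unfold W1 at h2
  linarith

/-- shifted sums -/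
noncomputable def V1 (h : ℕ) : ℚ :=
  ∑ j ∈ range ((h + 1) / 2), ((j : ℚ) + 1) / ((h : ℚ) - j) * D h (j + 1)

/-- shifted sums -/
noncomputable def V2 (h : ℕ) : ℚ :=
  ∑ j ∈ range (h / 2), ((j : ℚ) + 1) / ((h : ℚ) - j) * D h (j + 1)

lemma choose_ratio (h j : ℕ) (hj : j + 1 ≤ h) :
    (h.choose j : ℚ) = ((j : ℚ) + 1) / ((h : ℚ) - j) * (h.choose (j + 1) : ℚ) := by
  have h1 : h.choose (j + 1) * (j + 1) = h.choose j * (h - j) := Nat.choose_succ_right_eq h j
  have h2 : ((h - j : ℕ) : ℚ) = (h : ℚ) - j := by rw [Nat.cast_sub (by omega)]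
  have h3 : (h.choose (j + 1) : ℚ) * ((j : ℚ) + 1) = (h.choose j : ℚ) * ((h : ℚ) - j) := by
    rw [← h2]; exact_mod_cast h1
  have h4 : (0 : ℚ) < (h : ℚ) - j := by
    rw [← h2]; exact_mod_cast (by omega : 0 < h - j)
  rw [div_mul_eq_mul_div, eq_div_iff h4.ne']
  linarith

lemma E2ee (h : ℕ) (h1 : 1 ≤ h) : (G (2 * h) (gE h) (h + 1) h).coeff h = W1 h / (2 * 4 ^ h) := by
  unfold G
  rw [if_pos (by omega), show h + 1 - 1 - h = 0 by omega, pow_zero, one_mul, finsetSum_coeff,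
    sum_Ico_even]
  · rw [show (h + 1 + 1) / 2 = h / 2 + 1 by omega, show (2 * h + 1 + 1) / 2 = h + 1 by omega,
      ← W1_eq, Finset.sum_div]
    apply Finset.sum_congr rfl
    intro j hj
    rw [mem_Ico] at hj
    obtain ⟨j, rfl⟩ : ∃ j', j = j' + 1 := ⟨j - 1, by omega⟩
    rw [coeff_C_mul, gE_even, show 2 * (j + 1) + h - (h + 1) = 2 * j + 1 by omega,
      show 2 * h + (h + 1) - 1 - h - 2 * (j + 1) = 2 * (h - (j + 1)) by omega]
    have := cfB1 h j (by omega)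
    have h4 : (0 : ℚ) < 4 ^ h := by positivity
    field_simp
    linarith
  · intro k _ _ hk
    unfold gE
    rw [if_neg (by omega), C_0, zero_mul, coeff_zero]

lemma E_aux (h K : ℕ) (hK : K ≤ h + 1) (h1 : 1 ≤ h) :
    (∑ k ∈ range K, C (gE h k) * ((1 + X) ^ k * (1 - X) ^ (2 * h - 1 - k)) : ℚ[X]).coeff h =
    (∑ j ∈ range ((K + 1) / 2), D h j) / (2 * 4 ^ h) := by
  rw [finsetSum_coeff, range_eq_Ico, sum_Ico_even]
  · rw [show (0 + 1) / 2 = 0 by norm_num, Finset.sum_div, range_eq_Ico]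
    apply Finset.sum_congr rfl
    intro j hj
    rw [mem_Ico] at hj
    rw [coeff_C_mul, gE_even, show 2 * h - 1 - 2 * j = 2 * (h - j) - 1 by omega]
    have := cfB2 h j (by omega)
    have h4 : (0 : ℚ) < 4 ^ h := by positivity
    field_simp
    linarith
  · intro k _ _ hk
    unfold gE
    rw [if_neg (by omega), C_0, zero_mul, coeff_zero]

lemma E2e2 (h : ℕ) (h1 : 1 ≤ h) :
    (G (2 * h) (gE h) (h + 1) (h + 1)).coeff h = W2 h / (2 * 4 ^ h) := by
  unfold G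
  rw [if_neg (by omega), show h + 1 - (h + 1) = 0 by omega, pow_zero, one_mul]
  simp only [add_zero, Nat.sub_zero]
  rw [E_aux h (h + 1) le_rfl h1, W2, show (h + 1 + 1) / 2 = h / 2 + 1 by omega]

lemma E1ee (h : ℕ) (h1 : 1 ≤ h) :
    (G (2 * h) (gE h) h h).coeff h = W1 h / (2 * 4 ^ h) := by
  unfold G
  rw [if_neg (by omega), show h - h = 0 by omega, pow_zero, one_mul]
  simp only [add_zero, Nat.sub_zero]
  rw [E_aux h h (by omega) h1, W1]

lemma E1e2 (h : ℕ) (h1 : 1 ≤ h) :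
    (G (2 * h) (gE h) h (h + 1)).coeff h = V1 h / (2 * 4 ^ h) := by
  unfold G
  rw [if_neg (by omega), show h + 1 - h = 1 by omega, pow_one, neg_one_mul, coeff_neg,
    finsetSum_coeff, range_eq_Ico, sum_Ico_even]
  · rw [show (0 + 1) / 2 = 0 by norm_num, V1, Finset.sum_div, range_eq_Ico, ← Finset.sum_neg_distrib]
    apply Finset.sum_congr rfl
    intro j hj
    rw [mem_Ico] at hj
    rw [coeff_C_mul, gE_even, show 2 * h - 1 - 2 * j - 1 = 2 * (h - (j + 1)) by omega,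
      choose_ratio h j (by omega)]
    have := cfB1 h j (by omega)
    have h4 : (0 : ℚ) < 4 ^ h := by positivity
    have h5 : (0 : ℚ) < (h : ℚ) - j := by
      rw [← Nat.cast_sub (by omega)]; exact_mod_cast (by omega : 0 < h - j)
    have h6 : ((-1 : ℚ)) ^ (h - j) = - (-1) ^ (h - (j + 1)) := by
      rw [show h - j = (h - (j + 1)) + 1 by omega, pow_succ]; ring
    rw [h6]
    have h7 : (D h (j + 1)) = 2 * ((-1) ^ (h - (j + 1)) * (h.choose (j + 1) : ℚ) *
      ((1 + X) ^ (2 * j + 1) * (1 - X) ^ (2 * (h - (j + 1))) : ℚ[X]).coeff h) := by linarith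
    rw [h7]
    field_simp
  · intro k _ _ hk
    unfold gE
    rw [if_neg (by omega), C_0, zero_mul, coeff_zero]

lemma O2ee (h : ℕ) : (G (2 * h + 1) (gO h) (h + 1) h).coeff h = W2 h / (2 * 4 ^ h) := by
  unfold G
  rw [if_pos (by omega), show h + 1 - 1 - h = 0 by omega, pow_zero, one_mul, finsetSum_coeff,
    sum_Ico_odd]
  · rw [show (2 * h + 1 + 1) / 2 = h + 1 by omega, ← W2_eq, Finset.sum_div]
    apply Finset.sum_congr rfl
    intro j hj
    rw [mem_Ico] at hj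
    rw [coeff_C_mul, gO_odd, show 2 * j + 1 + h - (h + 1) = 2 * j by omega,
      show 2 * h + 1 + (h + 1) - 1 - h - (2 * j + 1) = 2 * (h - j) by omega]
    have := cfA h j (by omega)
    rw [← this]
    ring
  · intro k hk1 hk2 hk
    obtain ⟨j, rfl⟩ : ∃ j, k = 2 * (j + 1) := ⟨k / 2 - 1, by omega⟩
    rw [coeff_C_mul, show 2 * (j + 1) + h - (h + 1) = 2 * j + 1 by omega,
      show 2 * h + 1 + (h + 1) - 1 - h - 2 * (j + 1) = 2 * (h - j) - 1 by omega,
      cfB3 h j (by omega), mul_zero]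

lemma O_aux (h K : ℕ) (hK : K ≤ h + 1) :
    (∑ k ∈ range K, C (gO h k) * ((1 + X) ^ k * (1 - X) ^ (2 * h - k)) : ℚ[X]).coeff h =
    - ((∑ j ∈ range ((K + 1) / 2), D h j) / (2 * 4 ^ h)) := by
  rw [finsetSum_coeff, range_eq_Ico, sum_Ico_even]
  · rw [show (0 + 1) / 2 = 0 by norm_num, Finset.sum_div, range_eq_Ico, ← Finset.sum_neg_distrib]
    apply Finset.sum_congr rfl
    intro j hj
    rw [mem_Ico] at hj
    rw [coeff_C_mul, gO_even, show 2 * h - 2 * j = 2 * (h - j) by omega]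
    have := cfA h j (by omega)
    rw [← this]
    ring
  · intro k _ hk1 hk
    obtain ⟨j, rfl⟩ : ∃ j, k = 2 * j + 1 := ⟨k / 2, by omega⟩
    rw [coeff_C_mul, show 2 * h - (2 * j + 1) = 2 * (h - j) - 1 by omega,
      cfB3 h j (by omega), mul_zero]

lemma O2e2 (h : ℕ) :
    (G (2 * h + 1) (gO h) (h + 1) (h + 1)).coeff h = - (W2 h / (2 * 4 ^ h)) := by
  unfold G
  rw [if_neg (by omega), show h + 1 - (h + 1) = 0 by omega, pow_zero, one_mul]
  simp only [add_zero, Nat.sub_zero, Nat.add_sub_cancel]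
  rw [O_aux h (h + 1) le_rfl, W2, show (h + 1 + 1) / 2 = h / 2 + 1 by omega]

lemma O1ee (h : ℕ) :
    (G (2 * h + 1) (gO h) h h).coeff h = - (W1 h / (2 * 4 ^ h)) := by
  unfold G
  rw [if_neg (by omega), show h - h = 0 by omega, pow_zero, one_mul]
  simp only [add_zero, Nat.sub_zero, Nat.add_sub_cancel]
  rw [O_aux h h (by omega), W1]

lemma O1e2 (h : ℕ) :
    (G (2 * h + 1) (gO h) h (h + 1)).coeff h = V2 h / (2 * 4 ^ h) := by
  unfold G
  rw [if_neg (by omega), show h + 1 - h = 1 by omega, pow_one, neg_one_mul, coeff_neg,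
    finsetSum_coeff, range_eq_Ico, sum_Ico_odd]
  · rw [show 0 / 2 = 0 by norm_num, V2, Finset.sum_div, range_eq_Ico, ← Finset.sum_neg_distrib]
    apply Finset.sum_congr rfl
    intro j hj
    rw [mem_Ico] at hj
    rw [coeff_C_mul, gO_odd, show 2 * h + 1 - 1 - (2 * j + 1) - 1 = 2 * (h - (j + 1)) by omega,
      show 2 * j + 1 + 1 = 2 * (j + 1) by ring, choose_ratio h j (by omega)]
    have := cfA h (j + 1) (by omega)
    have h4 : (0 : ℚ) < 4 ^ h := by positivity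
    have h5 : (0 : ℚ) < (h : ℚ) - j := by
      rw [← Nat.cast_sub (by omega)]; exact_mod_cast (by omega : 0 < h - j)
    have h6 : ((-1 : ℚ)) ^ (h - j) = - (-1) ^ (h - (j + 1)) := by
      rw [show h - j = (h - (j + 1)) + 1 by omega, pow_succ]; ring
    rw [h6, ← this]
    field_simp
  · intro k _ hk1 hk
    obtain ⟨j, rfl⟩ : ∃ j, k = 2 * j := ⟨k / 2, by omega⟩
    rw [coeff_C_mul, show 2 * h + 1 - 1 - 2 * j - 1 = 2 * (h - j) - 1 by omega,
      cfB3 h j (by omega), mul_zero]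

/-- the telescoping sum -/
lemma tele (h r : ℕ) (hr : r ≤ h + 1) :
    ∑ i ∈ range r, ((h : ℚ) + 1) / ((h : ℚ) - i + 1) * D h i =
      (r : ℚ) * cb r * cb (h + 1 - r) / 2 := by
  induction r with
  | zero => simp
  | succ r ih =>
    rw [sum_range_succ, ih (by omega)]
    have h1 := cb_succ r
    have h2 : ((h : ℚ) - r + 1) * cb (h + 1 - r) = 2 * (2 * ((h : ℚ) - r) + 1) * cb (h - r) := by
      have := cb_succ (h - r)
      rw [Nat.cast_sub (by omega)] at this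
      rw [show h + 1 - r = h - r + 1 by omega]
      exact this
    have h3 : (0 : ℚ) < (h : ℚ) - r + 1 := by
      have : (r : ℚ) ≤ h := by exact_mod_cast (by omega : r ≤ h)
      linarith
    unfold D
    rw [show h + 1 - (r + 1) = h - r by omega]
    push_cast
    rw [h1]
    have h4 : cb (h + 1 - r) = 2 * (2 * ((h : ℚ) - r) + 1) * cb (h - r) / ((h : ℚ) - r + 1) := by
      rw [eq_div_iff h3.ne', ← h2]; ring
    rw [h4]
    field_simp
    ring

lemma V2_add (h : ℕ) : V2 h + W2 h =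
    ((h / 2 + 1 : ℕ) : ℚ) * cb (h / 2 + 1) * cb (h + 1 - (h / 2 + 1)) / 2 := by
  rw [← tele h (h / 2 + 1) (by omega)]
  have h1 : V2 h = ∑ i ∈ range (h / 2 + 1), ((i : ℚ)) / ((h : ℚ) - i + 1) * D h i := by
    rw [sum_range_succ', V2]
    simp only [Nat.cast_zero, zero_div, zero_mul, add_zero]
    apply Finset.sum_congr rfl
    intro j _
    push_cast
    congr 2
    ring
  rw [h1, W2, ← Finset.sum_add_distrib]
  apply Finset.sum_congr rfl
  intro i hi
  rw [mem_range] at hi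
  have h3 : (0 : ℚ) < (h : ℚ) - i + 1 := by
    have : (i : ℚ) ≤ h := by exact_mod_cast (by omega : i ≤ h)
    linarith
  field_simp
  ring

lemma V1_add (h : ℕ) (hh : 1 ≤ h) : V1 h + W1 h =
    2 * ((((h + 1) / 2 : ℕ) : ℚ) * cb ((h + 1) / 2) * cb (h - (h + 1) / 2)) := by
  set r := (h + 1) / 2 with hr
  have h1 : V1 h = ∑ i ∈ range (r + 1), ((i : ℚ)) / ((h : ℚ) - i + 1) * D h i := by
    rw [sum_range_succ', V1]
    simp only [Nat.cast_zero, zero_div, zero_mul, add_zero]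
    apply Finset.sum_congr rfl
    intro j _
    push_cast
    congr 2
    ring
  rw [h1, W1, ← hr, sum_range_succ]
  have h2 : ∑ i ∈ range r, ((i : ℚ)) / ((h : ℚ) - i + 1) * D h i + ∑ i ∈ range r, D h i =
      (r : ℚ) * cb r * cb (h + 1 - r) / 2 := by
    rw [← tele h r (by omega), ← Finset.sum_add_distrib]
    apply Finset.sum_congr rfl
    intro i hi
    rw [mem_range] at hi
    have h3 : (0 : ℚ) < (h : ℚ) - i + 1 := by
      have : (i : ℚ) ≤ h := by exact_mod_cast (by omega : i ≤ h)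
      linarith
    field_simp
    ring
  have h3 : ((h : ℚ) - r + 1) * cb (h + 1 - r) = 2 * (2 * ((h : ℚ) - r) + 1) * cb (h - r) := by
    have := cb_succ (h - r)
    rw [Nat.cast_sub (by omega)] at this
    rw [show h + 1 - r = h - r + 1 by omega]
    exact this
  have h4 : (0 : ℚ) < (h : ℚ) - r + 1 := by
    have : (r : ℚ) ≤ h := by exact_mod_cast (by omega : r ≤ h)
    linarith
  have h5 : cb (h + 1 - r) = 2 * (2 * ((h : ℚ) - r) + 1) * cb (h - r) / ((h : ℚ) - r + 1) := by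
    rw [eq_div_iff h4.ne', ← h3]; ring
  rw [h5] at h2
  have h6 : D h r = cb r * cb (h - r) := rfl
  rw [h6]
  have e : ∀ A B c : ℚ, A + c + B = (A + B) + c := fun _ _ _ => by ring
  rw [e, h2]
  field_simp
  ring

/-- the value of the two point function, even order -/
lemma val_even (h : ℕ) (h1 : 1 ≤ h) :
    (G (2 * h) (gE h) h (h + 1)).coeff h * (1 - 2 * (G (2 * h) (gE h) (h + 1) h).coeff h) +
      2 * ((G (2 * h) (gE h) (h + 1) (h + 1)).coeff h * (G (2 * h) (gE h) h h).coeff h) =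
    W2 h * ((((h + 1) / 2 : ℕ) : ℚ) * cb ((h + 1) / 2) * cb (h - (h + 1) / 2)) / 16 ^ h := by
  rw [E2ee h h1, E2e2 h h1, E1ee h h1, E1e2 h h1]
  have h2 := W_add h
  have h3 := V1_add h h1
  have h4 : (0 : ℚ) < 4 ^ h := by positivity
  have h5 : (16 : ℚ) ^ h = 4 ^ h * 4 ^ h := by rw [← mul_pow]; norm_num
  have h6 : W1 h = 4 ^ h - W2 h := by linarith
  have h7 : (((h + 1) / 2 : ℕ) : ℚ) * cb ((h + 1) / 2) * cb (h - (h + 1) / 2) =
    (V1 h + W1 h) / 2 := by linarith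
  rw [h7, h5, h6]
  field_simp
  ring

/-- the value of the two point function, odd order -/
lemma val_odd (h : ℕ) :
    (G (2 * h + 1) (gO h) h (h + 1)).coeff h * (1 - 2 * (G (2 * h + 1) (gO h) (h + 1) h).coeff h) +
      2 * ((G (2 * h + 1) (gO h) (h + 1) (h + 1)).coeff h * (G (2 * h + 1) (gO h) h h).coeff h) =
    W1 h * (((h / 2 + 1 : ℕ) : ℚ) * cb (h / 2 + 1) * cb (h + 1 - (h / 2 + 1))) / (4 * 16 ^ h) := by
  rw [O2ee h, O2e2 h, O1ee h, O1e2 h]
  have h2 := W_add h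
  have h3 := V2_add h
  have h4 : (0 : ℚ) < 4 ^ h := by positivity
  have h5 : (16 : ℚ) ^ h = 4 ^ h * 4 ^ h := by rw [← mul_pow]; norm_num
  have h6 : W2 h = 4 ^ h - W1 h := by linarith
  have h7 : ((h / 2 + 1 : ℕ) : ℚ) * cb (h / 2 + 1) * cb (h + 1 - (h / 2 + 1)) =
    (V2 h + W2 h) * 2 := by linarith
  rw [h7, h5, h6]
  field_simp
  ring

end Pool.Agent.Y171.Az
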