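import Pool.Agent.Y171.Az2
import Pool.Agent.Helper848.Kast

set_option autoImplicit false

/-!
The Aztec diamond with two removed cells: region, diagonal counts, gauge.
-/

namespace Pool.Agent.Y171.Az

open Finset Pool.Agent.Helper848 Pool.Agent.Helper848.AztecDet

/-- The Aztec diamond of order `n`: the pair `(x, y)` stands for the unit square
`[x, x + 1] × [y, y + 1]`, whose centre is `(x + 1/2, y + 1/2)`; the condition is
`|x + 1/2| + |y + 1/2| ≤ n`. -/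
noncomputable def aztec (n : ℕ) : Finset (ℤ × ℤ) :=
  ((Finset.Ico (-(n : ℤ)) n) ×ˢ (Finset.Ico (-(n : ℤ)) n)).filter
    fun p => |2 * p.1 + 1| + |2 * p.2 + 1| ≤ 2 * n

/-- The region `D_n`: the Aztec diamond of order `n` without the unit squares centred at
`(-1/2, -1/2)` and `(1/2, 3/2)`. -/
noncomputable def knightRegion (n : ℕ) : Finset (ℤ × ℤ) := aztec n \ {(-1, -1), (0, 1)}

lemma mem_aztec (n : ℕ) (p : ℤ × ℤ) : p ∈ aztec n ↔
    -(n : ℤ) ≤ p.1 + p.2 + 1 ∧ p.1 + p.2 + 1 ≤ n ∧ -(n : ℤ) ≤ p.2 - p.1 ∧ p.2 - p.1 ≤ n := by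
  unfold aztec
  rw [mem_filter, mem_product, mem_Ico, mem_Ico]
  rcases abs_cases (2 * p.1 + 1) with ⟨h1, h2⟩ | ⟨h1, h2⟩ <;>
  rcases abs_cases (2 * p.2 + 1) with ⟨h3, h4⟩ | ⟨h3, h4⟩ <;>
  rw [h1, h3] <;> constructor <;> intro h <;> omega

/-- cells of the first kind -/
def cE (n : ℕ) (s i : ℕ) : ℤ × ℤ := ((s : ℤ) - i - 1, (s : ℤ) + i - n)

/-- cells of the second kind -/
def cO (n : ℕ) (s t : ℕ) : ℤ × ℤ := ((s : ℤ) - t, (s : ℤ) + t - n)

lemma cE_mem (n s i : ℕ) (hs : s ≤ n) (hi : i < n) : cE n s i ∈ aztec n := by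
  rw [mem_aztec]; unfold cE; simp only; omega

lemma cO_mem (n s t : ℕ) (hs : s < n) (ht : t ≤ n) : cO n s t ∈ aztec n := by
  rw [mem_aztec]; unfold cO; simp only; omega

lemma above_E (n s i : ℕ) (hs : s ≤ n) (hi : i < n) : above (aztec n) (cE n s i) = n - s := by
  unfold above
  have h : (aztec n).filter (fun q => q.2 - q.1 = (cE n s i).2 - (cE n s i).1 ∧ (cE n s i).1 < q.1) =
      (Finset.Ioc ((s : ℤ) - i - 1) ((n : ℤ) - i - 1)).image
        (fun x => ((x, x + (2 * (i : ℤ) + 1 - n)) : ℤ × ℤ)) := by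
    ext q
    rw [mem_filter, mem_aztec, mem_image]
    unfold cE
    simp only [mem_Ioc]
    constructor
    · rintro ⟨h1, h2, h3⟩
      refine ⟨q.1, by omega, ?_⟩
      ext
      · rfl
      · simp only; omega
    · rintro ⟨x, hx, rfl⟩
      simp only
      omega
  rw [h, Finset.card_image_of_injective, Int.card_Ioc]
  · omega
  · intro x y hxy
    simp only [Prod.mk.injEq] at hxy
    exact hxy.1

lemma below_O (n s t : ℕ) (hs : s < n) (ht : t ≤ n) : below (aztec n) (cO n s t) = s := by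
  unfold below
  have h : (aztec n).filter (fun q => q.2 - q.1 = (cO n s t).2 - (cO n s t).1 ∧ q.1 < (cO n s t).1) =
      (Finset.Ico (-(t : ℤ)) ((s : ℤ) - t)).image
        (fun x => ((x, x + (2 * (t : ℤ) - n)) : ℤ × ℤ)) := by
    ext q
    rw [mem_filter, mem_aztec, mem_image]
    unfold cO
    simp only [mem_Ico]
    constructor
    · rintro ⟨h1, h2, h3⟩
      refine ⟨q.1, by omega, ?_⟩
      ext
      · rfl
      · simp only; omega
    · rintro ⟨x, hx, rfl⟩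
      simp only
      omega
  rw [h, Finset.card_image_of_injective, Int.card_Ico]
  · omega
  · intro x y hxy
    simp only [Prod.mk.injEq] at hxy
    exact hxy.1

/-- the region without two cells -/
noncomputable def reg (n s1 t1 s2 i2 : ℕ) : Finset (ℤ × ℤ) := aztec n \ {cO n s1 t1, cE n s2 i2}

lemma card_filter_sdiff_pair (A : Finset (ℤ × ℤ)) (u v : ℤ × ℤ) (hu : u ∈ A) (hv : v ∈ A)
    (huv : u ≠ v) (P : ℤ × ℤ → Prop) [DecidablePred P] :
    ((A \ {u, v}).filter P).card + ((if P u then 1 else 0) + (if P v then 1 else 0)) =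
      (A.filter P).card := by
  have h1 : (A.filter P) = ((A \ {u, v}).filter P) ∪ (({u, v} : Finset (ℤ × ℤ)).filter P) := by
    ext q
    simp only [mem_filter, mem_union, mem_sdiff, mem_insert, mem_singleton]
    constructor
    · rintro ⟨h1, h2⟩
      by_cases h3 : q = u ∨ q = v
      · exact Or.inr ⟨h3, h2⟩
      · exact Or.inl ⟨⟨h1, h3⟩, h2⟩
    · rintro (⟨⟨h1, _⟩, h2⟩ | ⟨h1 | h1, h2⟩)
      · exact ⟨h1, h2⟩
      · exact ⟨h1 ▸ hu, h2⟩
      · exact ⟨h1 ▸ hv, h2⟩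
  have h2 : Disjoint ((A \ {u, v}).filter P) (({u, v} : Finset (ℤ × ℤ)).filter P) := by
    rw [Finset.disjoint_left]
    intro q hq hq2
    simp only [mem_filter, mem_sdiff, mem_insert, mem_singleton] at hq hq2
    exact hq.1.2 hq2.1
  rw [h1, card_union_of_disjoint h2]
  congr 1
  rw [Finset.card_filter, Finset.sum_pair huv]

lemma cO_ne_cE (n s t s' i : ℕ) : cO n s t ≠ cE n s' i := by
  unfold cO cE
  intro h
  rw [Prod.mk.injEq] at h
  omega

lemma above_reg (n s1 t1 s2 i2 : ℕ) (h1 : s1 < n) (h2 : t1 ≤ n) (h3 : s2 ≤ n) (h4 : i2 < n)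
    (s i : ℕ) (hs : s ≤ n) (hi : i < n) :
    above (reg n s1 t1 s2 i2) (cE n s i) + (if i = i2 ∧ s < s2 then 1 else 0) = n - s := by
  rw [← above_E n s i hs hi]
  unfold above reg
  rw [← card_filter_sdiff_pair (aztec n) (cO n s1 t1) (cE n s2 i2) (cO_mem n s1 t1 h1 h2)
    (cE_mem n s2 i2 h3 h4) (cO_ne_cE _ _ _ _ _)]
  congr 1
  unfold cO cE
  simp only
  split_ifs <;> omega

lemma below_reg (n s1 t1 s2 i2 : ℕ) (h1 : s1 < n) (h2 : t1 ≤ n) (h3 : s2 ≤ n) (h4 : i2 < n)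
    (s t : ℕ) (hs : s < n) (ht : t ≤ n) :
    below (reg n s1 t1 s2 i2) (cO n s t) + (if t = t1 ∧ s1 < s then 1 else 0) = s := by
  conv_rhs => rw [← below_O n s t hs ht]
  unfold below reg
  rw [← card_filter_sdiff_pair (aztec n) (cO n s1 t1) (cE n s2 i2) (cO_mem n s1 t1 h1 h2)
    (cE_mem n s2 i2 h3 h4) (cO_ne_cE _ _ _ _ _)]
  congr 1
  unfold cO cE
  simp only
  split_ifs <;> omega

/-- integer version of the Kasteleyn matrix -/
def K0z (n : ℕ) (o : O n) (x : E n) : ℤ :=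
  (if (x.1 : ℕ) = o.1 + 1 then (1 : ℤ) else 0) *
    ((if (x.2 : ℕ) = o.2 then 1 else 0) - (if (x.2 : ℕ) + 1 = o.2 then 1 else 0)) +
  (if (x.1 : ℕ) = o.1 then (1 : ℤ) else 0) *
    ((if (x.2 : ℕ) = o.2 then 1 else 0) + (if (x.2 : ℕ) + 1 = o.2 then 1 else 0))

lemma K0z_cast (n : ℕ) (o : O n) (x : E n) : ((K0z n o x : ℤ) : ℚ) = K0 n o x := by
  unfold K0z K0
  rw [Matrix.of_apply]
  push_cast
  rfl

lemma npc' {a b : ℕ} (h : a % 2 = b % 2) : (-1 : ℤ) ^ a = (-1) ^ b := by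
  rw [neg_one_pow_eq_pow_mod_two, h, ← neg_one_pow_eq_pow_mod_two]

lemma adj_iff (n s t s' i : ℕ) : Adj (cE n s' i) (cO n s t) ↔
    (s' = s ∨ s' = s + 1) ∧ (i = t ∨ i + 1 = t) := by
  unfold Adj cE cO
  simp only
  omega

lemma kast_eq (n s1 t1 s2 i2 : ℕ) (h1 : s1 < n) (h2 : t1 ≤ n) (h3 : s2 ≤ n) (h4 : i2 < n)
    (s t s' i : ℕ) (hs : s < n) (ht : t ≤ n) (hs' : s' ≤ n) (hi : i < n) :
    kast (reg n s1 t1 s2 i2) (cO n s t) (cE n s' i) =
      if (s' = s ∨ s' = s + 1) ∧ (i = t ∨ i + 1 = t) then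
        (if i + 1 = t then (-1) ^ ((n - s') + s + (if i = i2 ∧ s' < s2 then 1 else 0) +
          (if t = t1 ∧ s1 < s then 1 else 0)) else 1) else 0 := by
  unfold kast
  simp only [adj_iff]
  by_cases hadj : (s' = s ∨ s' = s + 1) ∧ (i = t ∨ i + 1 = t)
  · rw [if_pos hadj, if_pos hadj]
    have hd : ((cO n s t).2 - (cO n s t).1 = (cE n s' i).2 - (cE n s' i).1 + 1) ↔ i + 1 = t := by
      unfold cO cE
      simp only
      omega
    by_cases hit : i + 1 = t
    · rw [if_pos hit, if_pos (hd.mpr hit)]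
      have ha := above_reg n s1 t1 s2 i2 h1 h2 h3 h4 s' i hs' hi
      have hb := below_reg n s1 t1 s2 i2 h1 h2 h3 h4 s t hs ht
      apply npc'
      split_ifs at ha hb ⊢ <;> omega
    · rw [if_neg hit, if_neg (fun h => hit (hd.mp h))]
  · rw [if_neg hadj, if_neg hadj]

end Pool.Agent.Y171.Az
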