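import Pool.Agent.Y171.Az3

set_option autoImplicit false

/-!
Counting the tilings of the Aztec diamond with two removed cells.
-/

namespace Pool.Agent.Y171.Az

open Finset Pool.Agent.Helper848 Pool.Agent.Helper848.AztecDet

/-- entries of the Kasteleyn matrix -/
def kz (s t s' i : ℕ) : ℤ :=
  (if s' = s + 1 then (1 : ℤ) else 0) * ((if i = t then 1 else 0) - (if i + 1 = t then 1 else 0)) +
  (if s' = s then (1 : ℤ) else 0) * ((if i = t then 1 else 0) + (if i + 1 = t then 1 else 0))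

/-- the signed adjacency in coordinates -/
def kf (n s1 t1 s2 i2 s t s' i : ℕ) : ℤ :=
  if (s' = s ∨ s' = s + 1) ∧ (i = t ∨ i + 1 = t) then
    (if i + 1 = t then (-1) ^ ((n - s') + s + (if i = i2 ∧ s' < s2 then 1 else 0) +
      (if t = t1 ∧ s1 < s then 1 else 0)) else 1) else 0

lemma kz_1 (s t : ℕ) : kz s t s t = 1 := by
  unfold kz; simp

lemma kz_2 (s t : ℕ) : kz s t (s + 1) t = 1 := by
  unfold kz; simp

lemma kz_3 (s i : ℕ) : kz s (i + 1) s i = 1 := by
  unfold kz; simp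

lemma kz_4 (s i : ℕ) : kz s (i + 1) (s + 1) i = -1 := by
  unfold kz; simp

lemma kz_0 (s t s' i : ℕ) (h : ¬ ((s' = s ∨ s' = s + 1) ∧ (i = t ∨ i + 1 = t))) :
    kz s t s' i = 0 := by
  unfold kz
  split_ifs <;> first | rfl | omega

/-- row exponents, even order -/
def aE (h s t : ℕ) : ℕ := (if t = h ∧ h ≤ s then 1 else 0) + (if t ≤ h then 1 else 0)

/-- column exponents, even order -/
def bE (h s i : ℕ) : ℕ := (if i = h ∧ s ≤ h then 1 else 0) + (if i < h then 1 else 0)

/-- row exponents, odd order -/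
def aO (h t : ℕ) : ℕ := t + (if h + 1 ≤ t then 1 else 0)

lemma neg_one_eq (a : ℕ) (h : a % 2 = 1) : (-1 : ℤ) = (-1) ^ a := by
  rw [npc' (show a % 2 = 1 % 2 by omega), pow_one]

lemma one_eq (a : ℕ) (h : a % 2 = 0) : (1 : ℤ) = (-1) ^ a := by
  rw [npc' (show a % 2 = 0 % 2 by omega), pow_zero]

lemma gauge_even (h s t s' i : ℕ) (h1 : 1 ≤ h) (hs : s < 2 * h) (ht : t ≤ 2 * h)
    (hs' : s' ≤ 2 * h) (hi : i < 2 * h) :
    (if (s = h ∧ t = h) ∧ (s' = h ∧ i = h) then (-1 : ℤ) else kz s t s' i) =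
      (-1) ^ (aE h s t) * (-1) ^ (bE h s' i) * kf (2 * h) (h - 1) h (h + 1) h s t s' i := by
  by_cases hadj : (s' = s ∨ s' = s + 1) ∧ (i = t ∨ i + 1 = t)
  · rw [kf, if_pos hadj]
    obtain ⟨hA, hB⟩ := hadj
    rcases hA with rfl | rfl <;> rcases hB with rfl | rfl
    · rw [kz_1, if_neg (show ¬ (i + 1 = i) by omega), mul_one, ← pow_add]
      split_ifs with h2
      · apply neg_one_eq
        unfold aE bE
        split_ifs <;> omega
      · apply one_eq
        unfold aE bE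
        split_ifs <;> omega
    · rw [kz_3, if_pos rfl, ← pow_add, ← pow_add, if_neg (by omega)]
      apply one_eq
      unfold aE bE
      split_ifs <;> omega
    · rw [kz_2, if_neg (show ¬ (i + 1 = i) by omega), mul_one, ← pow_add, if_neg (by omega)]
      apply one_eq
      unfold aE bE
      split_ifs <;> omega
    · rw [kz_4, if_pos rfl, ← pow_add, ← pow_add, if_neg (by omega)]
      apply neg_one_eq
      unfold aE bE
      split_ifs <;> omega
  · rw [kf, if_neg hadj, mul_zero, kz_0 _ _ _ _ hadj, if_neg]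
    omega

lemma gauge_odd (h s t s' i : ℕ) (h1 : 1 ≤ h) (hs : s < 2 * h + 1) (ht : t ≤ 2 * h + 1)
    (hs' : s' ≤ 2 * h + 1) (hi : i < 2 * h + 1) :
    (if (s = h ∧ t = h + 1) ∧ (s' = h ∧ i = h) then (-1 : ℤ) else kz s t s' i) =
      (-1) ^ (aO h t) * (-1) ^ (aO h i) *
        kf (2 * h + 1) (h - 1) (h + 1) (h + 1) h s t s' i := by
  by_cases hadj : (s' = s ∨ s' = s + 1) ∧ (i = t ∨ i + 1 = t)
  · rw [kf, if_pos hadj]
    obtain ⟨hA, hB⟩ := hadj
    rcases hA with rfl | rfl <;> rcases hB with rfl | rfl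
    · rw [kz_1, if_neg (show ¬ (i + 1 = i) by omega), mul_one, ← pow_add, if_neg (by omega)]
      apply one_eq
      unfold aO
      split_ifs <;> omega
    · rw [kz_3, if_pos rfl, ← pow_add, ← pow_add]
      split_ifs with h2
      all_goals first | (apply neg_one_eq; unfold aO; split_ifs <;> omega) |
        (apply one_eq; unfold aO; split_ifs <;> omega)
    · rw [kz_2, if_neg (show ¬ (i + 1 = i) by omega), mul_one, ← pow_add, if_neg (by omega)]
      apply one_eq
      unfold aO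
      split_ifs <;> omega
    · rw [kz_4, if_pos rfl, ← pow_add, ← pow_add, if_neg (by omega)]
      apply neg_one_eq
      unfold aO
      split_ifs <;> omega
  · rw [kf, if_neg hadj, mul_zero, kz_0 _ _ _ _ hadj, if_neg]
    omega

lemma K0_cast (n : ℕ) (o : O n) (x : E n) : K0 n o x = ((kz o.1 o.2 x.1 x.2 : ℤ) : ℚ) := by
  unfold K0 kz
  rw [Matrix.of_apply]
  push_cast
  rfl

lemma cE_inj (n s i s' i' : ℕ) (h : cE n s i = cE n s' i') : s = s' ∧ i = i' := by
  unfold cE at h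
  rw [Prod.mk.injEq] at h
  omega

lemma cO_inj (n s i s' i' : ℕ) (h : cO n s i = cO n s' i') : s = s' ∧ i = i' := by
  unfold cO at h
  rw [Prod.mk.injEq] at h
  omega

lemma exists_cE (n : ℕ) (p : ℤ × ℤ) (hp : p ∈ aztec n) (he : Even (p.1 + p.2 + ((n : ℤ) + 1))) :
    ∃ s i : ℕ, s ≤ n ∧ i < n ∧ cE n s i = p := by
  rw [mem_aztec] at hp
  rw [Int.even_iff] at he
  refine ⟨((p.1 + p.2 + ((n : ℤ) + 1)) / 2).toNat, ((p.2 - p.1 + n - 1) / 2).toNat, ?_, ?_, ?_⟩
  · omega
  · omega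
  · unfold cE
    ext <;> simp only <;> omega

lemma exists_cO (n : ℕ) (p : ℤ × ℤ) (hp : p ∈ aztec n) (he : ¬ Even (p.1 + p.2 + ((n : ℤ) + 1))) :
    ∃ s t : ℕ, s < n ∧ t ≤ n ∧ cO n s t = p := by
  rw [mem_aztec] at hp
  rw [Int.even_iff] at he
  refine ⟨((p.1 + p.2 + (n : ℤ)) / 2).toNat, ((p.2 - p.1 + n) / 2).toNat, ?_, ?_, ?_⟩
  · omega
  · omega
  · unfold cO
    ext <;> simp only <;> omega

open Polynomial in
theorem count_general (N h t1 : ℕ) (h1 : 1 ≤ h) (hn : h < N + 1) (ht1 : t1 ≤ N + 1)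
    (a b : ℕ → ℕ → ℕ)
    (hg : ∀ s t s' i, s < N + 1 → t ≤ N + 1 → s' ≤ N + 1 → i < N + 1 →
      (if (s = h ∧ t = t1) ∧ (s' = h ∧ i = h) then (-1 : ℤ) else kz s t s' i) =
      (-1) ^ (a s t) * (-1) ^ (b s' i) * kf (N + 1) (h - 1) t1 (h + 1) h s t s' i)
    (γ : ℕ → ℚ)
    (hγ : ∑ k ∈ Finset.range (N + 1 + 1), C (γ k) * ((1 + X) ^ k * (1 - X) ^ (N + 1 - k) : ℚ[X]) =
      X ^ t1)
    (hκ : kz h t1 h h = 1) :
    (numTilings (reg (N + 1) (h - 1) t1 (h + 1) h) : ℚ) = 2 ^ ((N + 1) * (N + 2) / 2) *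
      |(G (N + 1) γ h (h + 1)).coeff h * (1 - 2 * (G (N + 1) γ (h + 1) h).coeff h) +
      2 * ((G (N + 1) γ (h + 1) (h + 1)).coeff h * (G (N + 1) γ h h).coeff h)| := by
  classical
  set n := N + 1 with hnN
  let o1 : O n := (⟨h - 1, by omega⟩, ⟨t1, by omega⟩)
  let oe : O n := (⟨h, by omega⟩, ⟨t1, by omega⟩)
  let e2 : E n := (⟨h + 1, by omega⟩, ⟨h, by omega⟩)
  let ee : E n := (⟨h, by omega⟩, ⟨h, by omega⟩)
  have hne : ee ≠ e2 := by
    intro hc
    have := congrArg (fun x : E n => (x.1 : ℕ)) hc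
    simp only [ee, e2] at this
    omega
  let H1 : E n → ℚ := fun x => (G n γ h x.1).coeff x.2
  let H2 : E n → ℚ := fun x => (G n γ (h + 1) x.1).coeff x.2
  have hH1 : ∀ o, ∑ x, K0 n o x * H1 x = if o = o1 then 1 else 0 := by
    intro o
    rw [show (∑ x, K0 n o x * H1 x) = ∑ x : E n, K0 n o x * (G n γ h x.1).coeff x.2 from rfl,
      K0_G n γ h t1 h1 (by omega) hγ o]
    by_cases hc : o = o1
    · rw [if_pos hc, if_pos]
      rw [hc]
      exact ⟨show h - 1 + 1 = h by omega, rfl⟩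
    · rw [if_neg hc, if_neg]
      rintro ⟨hc1, hc2⟩
      apply hc
      ext
      · simp only [o1]; omega
      · simp only [o1]; omega
  have hH2 : ∀ o, ∑ x, K0 n o x * H2 x = if o = oe then 1 else 0 := by
    intro o
    rw [show (∑ x, K0 n o x * H2 x) = ∑ x : E n, K0 n o x * (G n γ (h + 1) x.1).coeff x.2 from rfl,
      K0_G n γ (h + 1) t1 (by omega) (by omega) hγ o]
    by_cases hc : o = oe
    · rw [if_pos hc, if_pos]
      rw [hc]
      exact ⟨rfl, rfl⟩
    · rw [if_neg hc, if_neg]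
      rintro ⟨hc1, hc2⟩
      apply hc
      ext
      · simp only [oe]; omega
      · simp only [oe]; omega
  have hcard : Fintype.card {x : E n // x ≠ e2} = Fintype.card {o : O n // o ≠ o1} := by
    rw [Fintype.card_subtype_compl, Fintype.card_subtype_compl]
    simp only [Fintype.card_unique, Fintype.card_prod, Fintype.card_fin]
    ring_nf
  let φ : {x : E n // x ≠ e2} ≃ {o : O n // o ≠ o1} := Fintype.equivOfCardEq hcard
  obtain ⟨e, he⟩ := abs_det_minor (K0 n) H1 H2 o1 oe e2 ee hne hH1 hH2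
    (by rw [K0_cast]; simp only [oe, ee]; rw [hκ]; norm_num) φ
  let f : {x : E n // x ≠ e2} → ℤ × ℤ := fun i => cE n i.1.1 i.1.2
  let g : {x : E n // x ≠ e2} → ℤ × ℤ := fun i => cO n (φ i).1.1 (φ i).1.2
  let M : Matrix {x : E n // x ≠ e2} {x : E n // x ≠ e2} ℤ := Matrix.of fun i j =>
    if ((φ i : O n) = oe ∧ (j : E n) = ee) then -1 else
      kz (φ i).1.1 (φ i).1.2 j.1.1 j.1.2
  have hf : Function.Injective f := by
    intro x y hxy
    obtain ⟨hA, hB⟩ := cE_inj _ _ _ _ _ hxy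
    apply Subtype.ext
    exact Prod.ext (Fin.ext hA) (Fin.ext hB)
  have hginj : Function.Injective g := by
    intro x y hxy
    obtain ⟨hA, hB⟩ := cO_inj _ _ _ _ _ hxy
    apply φ.injective
    apply Subtype.ext
    exact Prod.ext (Fin.ext hA) (Fin.ext hB)
  have hcount := numTilings_eq ((n : ℤ) + 1) (reg n (h - 1) t1 (h + 1) h) f g hf hginj (by
      intro p
      constructor
      · rintro ⟨i, rfl⟩
        have hi1 := i.1.1.2
        have hi2 := i.1.2.2
        refine ⟨?_, ?_⟩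
        · rw [reg, mem_sdiff, mem_insert, mem_singleton]
          refine ⟨cE_mem n _ _ (by omega) hi2, ?_⟩
          rintro (hc | hc)
          · exact cO_ne_cE _ _ _ _ _ hc.symm
          · obtain ⟨hA, hB⟩ := cE_inj _ _ _ _ _ hc
            exact i.2 (Prod.ext (Fin.ext hA) (Fin.ext hB))
        · simp only [f, cE]
          rw [Int.even_iff]
          omega
      · rintro ⟨hp, hpe⟩
        rw [reg, mem_sdiff, mem_insert, mem_singleton] at hp
        obtain ⟨s, i, hs, hi, rfl⟩ := exists_cE n p hp.1 hpe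
        refine ⟨⟨(⟨s, by omega⟩, ⟨i, hi⟩), ?_⟩, rfl⟩
        intro hc
        apply hp.2
        right
        have hc1 : s = h + 1 := congrArg (fun x : E n => (x.1 : ℕ)) hc
        have hc2 : i = h := congrArg (fun x : E n => (x.2 : ℕ)) hc
        rw [hc1, hc2]) (by
      intro p
      constructor
      · rintro ⟨i, rfl⟩
        have hi1 := (φ i).1.1.2
        have hi2 := (φ i).1.2.2
        refine ⟨?_, ?_⟩
        · rw [reg, mem_sdiff, mem_insert, mem_singleton]
          refine ⟨cO_mem n _ _ hi1 (by omega), ?_⟩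
          rintro (hc | hc)
          · obtain ⟨hA, hB⟩ := cO_inj _ _ _ _ _ hc
            exact (φ i).2 (Prod.ext (Fin.ext hA) (Fin.ext hB))
          · exact cO_ne_cE _ _ _ _ _ hc
        · simp only [g, cO]
          rw [Int.even_iff]
          omega
      · rintro ⟨hp, hpe⟩
        rw [reg, mem_sdiff, mem_insert, mem_singleton] at hp
        obtain ⟨s, t, hs, ht, rfl⟩ := exists_cO n p hp.1 hpe
        refine ⟨φ.symm ⟨(⟨s, hs⟩, ⟨t, by omega⟩), ?_⟩, ?_⟩
        · intro hc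
          apply hp.2
          left
          have hc1 : s = h - 1 := congrArg (fun x : O n => (x.1 : ℕ)) hc
          have hc2 : t = t1 := congrArg (fun x : O n => (x.2 : ℕ)) hc
          rw [hc1, hc2]
        · simp only [g, Equiv.apply_symm_apply])
    (fun i => (-1) ^ (a (φ i).1.1 (φ i).1.2)) (fun j => (-1) ^ (b j.1.1 j.1.2)) M (by
      intro i j
      have hi1 := (φ i).1.1.2
      have hi2 := (φ i).1.2.2
      have hj1 := j.1.1.2
      have hj2 := j.1.2.2
      have key := hg (φ i).1.1 (φ i).1.2 j.1.1 j.1.2 hi1 (by omega) (by omega) hj2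
      have hk := kast_eq n (h - 1) t1 (h + 1) h (by omega) ht1 (by omega) (by omega)
        (φ i).1.1 (φ i).1.2 j.1.1 j.1.2 hi1 (by omega) (by omega) hj2
      rw [show kast (reg n (h - 1) t1 (h + 1) h) (g i) (f j) =
        kf n (h - 1) t1 (h + 1) h (φ i).1.1 (φ i).1.2 j.1.1 j.1.2 from hk]
      push_cast
      rw [← key]
      simp only [M, Matrix.of_apply]
      have hiff : ((φ i : O n) = oe ∧ (j : E n) = ee) ↔
          ((((φ i).1.1 : ℕ) = h ∧ ((φ i).1.2 : ℕ) = t1) ∧ ((j.1.1 : ℕ) = h ∧ (j.1.2 : ℕ) = h)) := by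
        constructor
        · rintro ⟨hA, hB⟩
          rw [hA, hB]
          simp only [oe, ee, and_self]
        · rintro ⟨⟨hA, hB⟩, ⟨hC, hD⟩⟩
          exact ⟨Prod.ext (Fin.ext hA) (Fin.ext hB), Prod.ext (Fin.ext hC) (Fin.ext hD)⟩
      by_cases hc : ((φ i : O n) = oe ∧ (j : E n) = ee)
      · rw [if_pos hc, if_pos (hiff.mp hc)]
      · rw [if_neg hc, if_neg (fun h' => hc (hiff.mpr h'))])
  have hdet : ((M.det : ℤ) : ℚ) = (Matrix.of fun i j : {x : E n // x ≠ e2} =>
      if (φ i : O n) = oe ∧ (j : E n) = ee then (-1 : ℚ) else K0 n (φ i) j).det := by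
    rw [show ((M.det : ℤ) : ℚ) = Int.castRingHom ℚ M.det from rfl, RingHom.map_det]
    congr 1
    ext i j
    simp only [RingHom.mapMatrix_apply, Matrix.map_apply, M, Matrix.of_apply, Int.coe_castRingHom]
    split_ifs
    · norm_num
    · rw [K0_cast]
  rw [hcount, Nat.cast_natAbs, Int.cast_abs, hdet, he, abs_det_K0 N e]

end Pool.Agent.Y171.Az
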