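import Pool.Agent.Y171.Az4

set_option autoImplicit false

/-!
Reflection, the four residue classes, closed forms.
-/

namespace Pool.Agent.Y171.Az

open Finset Pool.Agent.Helper848 Pool.Agent.Helper848.AztecDet

/-- reflection of the cells at the antidiagonal -/
def rho (p : ℤ × ℤ) : ℤ × ℤ := (-p.2 - 1, -p.1 - 1)

lemma rho_rho (p : ℤ × ℤ) : rho (rho p) = p := by
  unfold rho; ext <;> simp

lemma rho_inj : Function.Injective rho := fun a b h => by
  rw [← rho_rho a, h, rho_rho]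

lemma rho_adj (p q : ℤ × ℤ) (h : Adj p q) : Adj (rho p) (rho q) := by
  unfold Adj rho at *
  simp only
  omega

/-- action on sets of dominoes -/
def act (T : Finset (Finset (ℤ × ℤ))) : Finset (Finset (ℤ × ℤ)) := T.image (fun D => D.image rho)

lemma image_rho_rho (D : Finset (ℤ × ℤ)) : (D.image rho).image rho = D := by
  rw [Finset.image_image]
  have : rho ∘ rho = id := funext rho_rho
  rw [this, Finset.image_id]

lemma act_act (T : Finset (Finset (ℤ × ℤ))) : act (act T) = T := by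
  unfold act
  rw [Finset.image_image]
  have : ((fun D : Finset (ℤ × ℤ) => D.image rho) ∘ fun D => D.image rho) = id :=
    funext image_rho_rho
  rw [this, Finset.image_id]

lemma tiling_act (R : Finset (ℤ × ℤ)) (T : Finset (Finset (ℤ × ℤ))) (h : IsTiling R T) :
    IsTiling (R.image rho) (act T) := by
  obtain ⟨h1, h2⟩ := h
  refine ⟨?_, ?_⟩
  · intro D hD
    unfold act at hD
    rw [mem_image] at hD
    obtain ⟨D', hD', rfl⟩ := hD
    obtain ⟨h3, p, q, h4, h5⟩ := h1 D' hD'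
    refine ⟨Finset.image_subset_image h3, rho p, rho q, rho_adj p q h4, ?_⟩
    rw [h5, Finset.image_insert, Finset.image_singleton]
  · intro c hc
    rw [mem_image] at hc
    obtain ⟨c', hc', rfl⟩ := hc
    obtain ⟨D, ⟨hD1, hD2⟩, hD3⟩ := h2 c' hc'
    refine ⟨D.image rho, ⟨?_, Finset.mem_image_of_mem rho hD2⟩, ?_⟩
    · exact Finset.mem_image_of_mem _ hD1
    · rintro D' ⟨hD'1, hD'2⟩
      unfold act at hD'1
      rw [mem_image] at hD'1
      obtain ⟨D'', hD''1, rfl⟩ := hD'1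
      rw [mem_image] at hD'2
      obtain ⟨c'', hc''1, hc''2⟩ := hD'2
      rw [rho_inj hc''2] at hc''1
      rw [hD3 D'' ⟨hD''1, hc''1⟩]

theorem numTilings_reflect (R : Finset (ℤ × ℤ)) : numTilings (R.image rho) = numTilings R := by
  unfold numTilings
  have h : {T : Finset (Finset (ℤ × ℤ)) | IsTiling (R.image rho) T} =
      act '' {T : Finset (Finset (ℤ × ℤ)) | IsTiling R T} := by
    ext T
    constructor
    · intro hT
      refine ⟨act T, ?_, act_act T⟩
      have := tiling_act _ _ hT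
      rw [image_rho_rho] at this
      exact this
    · rintro ⟨T', hT', rfl⟩
      exact tiling_act _ _ hT'
  rw [h, Set.ncard_image_of_injective]
  intro a b hab
  rw [← act_act a, hab, act_act]

lemma knight_even (h : ℕ) (h1 : 1 ≤ h) :
    knightRegion (2 * h) = reg (2 * h) (h - 1) h (h + 1) h := by
  unfold knightRegion reg
  have e1 : cO (2 * h) (h - 1) h = (-1, -1) := by
    unfold cO
    ext <;> push_cast <;> rw [Nat.cast_sub h1] <;> push_cast <;> ring
  have e2 : cE (2 * h) (h + 1) h = (0, 1) := by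
    unfold cE
    ext <;> push_cast <;> ring
  rw [e1, e2]

lemma knight_odd (h : ℕ) (h1 : 1 ≤ h) :
    (knightRegion (2 * h + 1)).image rho = reg (2 * h + 1) (h - 1) (h + 1) (h + 1) h := by
  unfold knightRegion reg
  have e1 : cO (2 * h + 1) (h - 1) (h + 1) = rho (0, 1) := by
    unfold cO rho
    ext <;> push_cast <;> rw [Nat.cast_sub h1] <;> push_cast <;> ring
  have e2 : cE (2 * h + 1) (h + 1) h = rho (-1, -1) := by
    unfold cE rho
    ext <;> push_cast <;> ring
  rw [e1, e2]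
  ext p
  rw [mem_image, mem_sdiff]
  constructor
  · rintro ⟨q, hq, rfl⟩
    rw [mem_sdiff] at hq
    refine ⟨?_, ?_⟩
    · have := hq.1
      rw [mem_aztec] at this ⊢
      unfold rho
      simp only
      omega
    · intro hc
      apply hq.2
      rw [mem_insert, mem_singleton] at hc ⊢
      rcases hc with hc | hc
      · exact Or.inr (rho_inj hc)
      · exact Or.inl (rho_inj hc)
  · rintro ⟨hp1, hp2⟩
    refine ⟨rho p, ?_, rho_rho p⟩
    rw [mem_sdiff]
    refine ⟨?_, ?_⟩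
    · rw [mem_aztec] at hp1 ⊢
      unfold rho
      simp only
      omega
    · intro hc
      apply hp2
      rw [mem_insert, mem_singleton] at hc ⊢
      rcases hc with hc | hc
      · right; rw [← hc, rho_rho]
      · left; rw [← hc, rho_rho]

theorem count_even (h : ℕ) (h1 : 1 ≤ h) :
    (numTilings (knightRegion (2 * h)) : ℚ) = 2 ^ (h * (2 * h + 1)) *
      (W2 h * ((((h + 1) / 2 : ℕ) : ℚ) * cb ((h + 1) / 2) * cb (h - (h + 1) / 2)) / 16 ^ h) := by
  rw [knight_even h h1]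
  obtain ⟨N, hN⟩ : ∃ N, 2 * h = N + 1 := ⟨2 * h - 1, by omega⟩
  have key := count_general N h h h1 (by omega) (by omega) (aE h) (bE h) (by
    intro s t s' i hs ht hs' hi
    rw [← hN] at hs ht hs' hi ⊢
    exact gauge_even h s t s' i h1 hs ht hs' hi) (gE h) (by
    have := hgE h
    rw [hN] at this
    exact this) (by rw [kz_1])
  rw [← hN, val_even h h1] at key
  rw [key]
  have e1 : 2 * h * (N + 2) / 2 = h * (2 * h + 1) := by
    rw [show N + 2 = 2 * h + 1 by omega, mul_assoc, Nat.mul_div_cancel_left _ (by norm_num)]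
  rw [e1, abs_of_nonneg]
  have h2 : 0 ≤ W2 h := by
    unfold W2 D
    apply Finset.sum_nonneg
    intro j _
    exact mul_nonneg (cb_pos _).le (cb_pos _).le
  have h3 := (cb_pos ((h + 1) / 2)).le
  have h4 := (cb_pos (h - (h + 1) / 2)).le
  positivity

theorem count_odd (h : ℕ) (h1 : 1 ≤ h) :
    (numTilings (knightRegion (2 * h + 1)) : ℚ) = 2 ^ ((2 * h + 1) * (h + 1)) *
      (W1 h * (((h / 2 + 1 : ℕ) : ℚ) * cb (h / 2 + 1) * cb (h + 1 - (h / 2 + 1))) /
        (4 * 16 ^ h)) := by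
  rw [← numTilings_reflect, knight_odd h h1]
  have key := count_general (2 * h) h (h + 1) h1 (by omega) (by omega) (fun _ t => aO h t)
    (fun _ i => aO h i) (by
    intro s t s' i hs ht hs' hi
    exact gauge_odd h s t s' i h1 hs ht hs' hi) (gO h) (hgO h) (by rw [kz_3])
  rw [val_odd h] at key
  rw [key]
  have e1 : (2 * h + 1) * (2 * h + 2) / 2 = (2 * h + 1) * (h + 1) := by
    rw [show (2 * h + 1) * (2 * h + 2) = 2 * ((2 * h + 1) * (h + 1)) by ring,
      Nat.mul_div_cancel_left _ (by norm_num)]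
  rw [e1, abs_of_nonneg]
  have h2 : 0 ≤ W1 h := by
    unfold W1 D
    apply Finset.sum_nonneg
    intro j _
    exact mul_nonneg (cb_pos _).le (cb_pos _).le
  have h3 := (cb_pos (h / 2 + 1)).le
  have h4 := (cb_pos (h + 1 - (h / 2 + 1))).le
  positivity

lemma W_even (m : ℕ) : W1 (2 * m) = (16 ^ m - cb m ^ 2) / 2 ∧ W2 (2 * m) = (16 ^ m + cb m ^ 2) / 2 := by
  have h1 : W2 (2 * m) = W1 (2 * m) + cb m ^ 2 := by
    unfold W1 W2
    rw [show (2 * m + 1) / 2 = m by omega, show 2 * m / 2 = m by omega, sum_range_succ]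
    congr 1
    unfold D
    rw [show 2 * m - m = m by omega, sq]
  have h2 := W_add (2 * m)
  have h3 : (4 : ℚ) ^ (2 * m) = 16 ^ m := by rw [pow_mul]; norm_num
  rw [h3] at h2
  constructor <;> linarith

lemma W_odd (m : ℕ) : W1 (2 * m + 1) = 4 ^ (2 * m + 1) / 2 ∧ W2 (2 * m + 1) = 4 ^ (2 * m + 1) / 2 := by
  have h1 : W2 (2 * m + 1) = W1 (2 * m + 1) := by
    unfold W1 W2
    rw [show (2 * m + 1 + 1) / 2 = m + 1 by omega, show (2 * m + 1) / 2 = m by omega]
  have h2 := W_add (2 * m + 1)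
  constructor <;> linarith

lemma T0 (m : ℕ) (hm : 1 ≤ m) : (numTilings (knightRegion (4 * m)) : ℚ) * 2 ^ (8 * m + 1) =
    2 ^ (8 * m ^ 2 + 2 * m) * m * cb m ^ 2 * (16 ^ m + cb m ^ 2) := by
  rw [show 4 * m = 2 * (2 * m) by ring, count_even (2 * m) (by omega), (W_even m).2,
    show (2 * m + 1) / 2 = m by omega, show 2 * m - m = m by omega]
  have h1 : (16 : ℚ) ^ (2 * m) = 2 ^ (8 * m) := by
    rw [show (16 : ℚ) = 2 ^ 4 by norm_num, ← pow_mul]; congr 1; ring
  have h2 : 2 * m * (2 * (2 * m) + 1) = 8 * m ^ 2 + 2 * m := by ring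
  rw [h1, h2, pow_succ]
  field_simp
  ring

lemma T1 (m : ℕ) (hm : 1 ≤ m) : (numTilings (knightRegion (4 * m + 1)) : ℚ) * 2 ^ (8 * m + 2) =
    2 ^ (8 * m ^ 2 + 6 * m + 1) * (2 * m + 1) * cb m ^ 2 * (16 ^ m - cb m ^ 2) := by
  rw [show 4 * m + 1 = 2 * (2 * m) + 1 by ring, count_odd (2 * m) (by omega), (W_even m).1,
    show 2 * m / 2 = m by omega, show 2 * m + 1 - (m + 1) = m by omega]
  have h1 : (16 : ℚ) ^ (2 * m) = 2 ^ (8 * m) := by
    rw [show (16 : ℚ) = 2 ^ 4 by norm_num, ← pow_mul]; congr 1; ring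
  have h2 : (2 * (2 * m) + 1) * (2 * m + 1) = 8 * m ^ 2 + 6 * m + 1 := by ring
  have h3 := cb_succ m
  rw [h1, h2, pow_succ, pow_succ]
  push_cast
  rw [h3]
  field_simp
  ring

lemma T2 (m : ℕ) : (numTilings (knightRegion (4 * m + 2)) : ℚ) =
    2 ^ (8 * m ^ 2 + 6 * m + 1) * (2 * m + 1) * cb m ^ 2 := by
  rw [show 4 * m + 2 = 2 * (2 * m + 1) by ring, count_even (2 * m + 1) (by omega), (W_odd m).2,
    show (2 * m + 1 + 1) / 2 = m + 1 by omega, show 2 * m + 1 - (m + 1) = m by omega]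
  have h1 : (16 : ℚ) ^ (2 * m + 1) = 4 ^ (2 * m + 1) * 2 ^ (4 * m + 2) := by
    rw [show (16 : ℚ) = 4 * 4 by norm_num, mul_pow]
    congr 1
    rw [show (4 : ℚ) = 2 ^ 2 by norm_num, ← pow_mul]; congr 1; ring
  have h2 : (2 * m + 1) * (2 * (2 * m + 1) + 1) = (8 * m ^ 2 + 6 * m + 1) + (4 * m + 2) := by ring
  have h3 := cb_succ m
  rw [h1, h2, pow_add]
  push_cast
  rw [h3]
  field_simp

lemma T3 (m : ℕ) : (numTilings (knightRegion (4 * m + 3)) : ℚ) =
    2 ^ (8 * m ^ 2 + 10 * m + 1) * (m + 1) * cb (m + 1) ^ 2 := by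
  rw [show 4 * m + 3 = 2 * (2 * m + 1) + 1 by ring, count_odd (2 * m + 1) (by omega), (W_odd m).1,
    show (2 * m + 1) / 2 = m by omega, show 2 * m + 1 + 1 - (m + 1) = m + 1 by omega]
  have h1 : (16 : ℚ) ^ (2 * m + 1) = 4 ^ (2 * m + 1) * 2 ^ (4 * m + 2) := by
    rw [show (16 : ℚ) = 4 * 4 by norm_num, mul_pow]
    congr 1
    rw [show (4 : ℚ) = 2 ^ 2 by norm_num, ← pow_mul]; congr 1; ring
  have h2 : (2 * (2 * m + 1) + 1) * (2 * m + 1 + 1) =
      (8 * m ^ 2 + 10 * m + 1) + (4 * m + 2) + 3 := by ring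
  rw [h1, h2, pow_add, pow_add]
  push_cast
  field_simp
  ring

end Pool.Agent.Y171.Az
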