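import Mathlib

set_option autoImplicit false

/-!
Random walks on finite groups with a precut-off and without a cut-off.
-/

namespace Pool.Agent.Y171.Precut

open Finset

section law

variable {G : Type} [Group G] [Fintype G] [DecidableEq G]

/-- law of the product of `k` independent increments -/
noncomputable def law (p : G → ℝ) (k : ℕ) (g : G) : ℝ :=
  ∑ f ∈ (Finset.univ : Finset (Fin k → G)).filter (fun f => (List.ofFn f).prod = g), ∏ i, p (f i)

lemma law_zero (p : G → ℝ) (g : G) : law p 0 g = if g = 1 then 1 else 0 := by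
  unfold law
  by_cases h : g = 1
  · subst h; simp
  · rw [if_neg h]
    apply Finset.sum_eq_zero
    intro f hf
    rw [Finset.mem_filter] at hf
    simp only [List.ofFn_zero, List.prod_nil] at hf
    exact absurd hf.2.symm h

lemma law_succ (p : G → ℝ) (k : ℕ) (g : G) :
    law p (k + 1) g = ∑ h, p h * law p k (h⁻¹ * g) := by
  unfold law
  rw [Finset.sum_filter]
  have e := (Fin.consEquiv (fun _ : Fin (k + 1) => G)).sum_comp
    (fun f : Fin (k + 1) → G => if (List.ofFn f).prod = g then ∏ i, p (f i) else 0)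
  rw [← e, Fintype.sum_prod_type]
  apply Finset.sum_congr rfl
  intro h _
  rw [Finset.mul_sum, Finset.sum_filter]
  apply Finset.sum_congr rfl
  intro f _
  have h1 : ((Fin.consEquiv (fun _ : Fin (k + 1) => G)) (h, f)) = Fin.cons h f := rfl
  rw [h1, List.ofFn_cons, List.prod_cons, Fin.prod_univ_succ]
  simp only [Fin.cons_zero, Fin.cons_succ]
  have h2 : (h * (List.ofFn f).prod = g) ↔ ((List.ofFn f).prod = h⁻¹ * g) := by
    constructor
    · intro h3; rw [← h3]; group
    · intro h3; rw [h3]; group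
  by_cases h3 : (List.ofFn f).prod = h⁻¹ * g
  · rw [if_pos (h2.mpr h3), if_pos h3]
  · rw [if_neg (fun h4 => h3 (h2.mp h4)), if_neg h3]

lemma law_eq (p : G → ℝ) (q : ℕ → G → ℝ) (h0 : ∀ g, q 0 g = if g = 1 then 1 else 0)
    (h1 : ∀ k g, ∑ h, p h * q k (h⁻¹ * g) = q (k + 1) g) (k : ℕ) (g : G) : law p k g = q k g := by
  induction k generalizing g with
  | zero => rw [law_zero, h0]
  | succ k ih =>
    rw [law_succ, ← h1]
    apply Finset.sum_congr rfl
    intro h _
    rw [ih]

lemma sum_inv_mul (f : G → ℝ) (g : G) : ∑ h, f (h⁻¹ * g) = ∑ h, f h := by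
  apply Fintype.sum_equiv ((Equiv.inv G).trans (Equiv.mulRight g))
  intro x
  simp

end law

section nu

variable {A : Type} [Group A] [Fintype A] [DecidableEq A]

/-- law of one coordinate -/
noncomputable def nu (r : ℝ) (a : A) : ℝ := r * (if a = 1 then 1 else 0) + (1 - r) / Fintype.card A

lemma card_pos' : (0 : ℝ) < Fintype.card A := by
  exact_mod_cast Fintype.card_pos

lemma sum_nu (r : ℝ) : ∑ a : A, nu r a = 1 := by
  unfold nu
  rw [Finset.sum_add_distrib, ← Finset.mul_sum, Finset.sum_const, Finset.card_univ, nsmul_eq_mul]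
  have := card_pos' (A := A)
  have h1 : ∑ a : A, (if a = 1 then (1 : ℝ) else 0) = 1 := by simp
  rw [h1]
  field_simp
  ring

lemma nu_nonneg {r : ℝ} (h0 : 0 ≤ r) (h1 : r ≤ 1) (a : A) : 0 ≤ nu r a := by
  unfold nu
  have := card_pos' (A := A)
  have h2 : (0 : ℝ) ≤ if a = 1 then 1 else 0 := by split_ifs <;> norm_num
  have h3 : 0 ≤ 1 - r := by linarith
  positivity

lemma nu_conv (r s : ℝ) (b : A) : ∑ a : A, nu r a * nu s (a⁻¹ * b) = nu (r * s) b := by
  have hc := card_pos' (A := A)
  have e1 : ∀ a : A, nu r a * nu s (a⁻¹ * b) =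
      r * (if a = 1 then nu s (a⁻¹ * b) else 0) + (1 - r) / Fintype.card A * nu s (a⁻¹ * b) := by
    intro a
    have : nu r a = r * (if a = 1 then 1 else 0) + (1 - r) / Fintype.card A := rfl
    rw [this]
    split_ifs <;> ring
  rw [Finset.sum_congr rfl (fun a _ => e1 a), Finset.sum_add_distrib, ← Finset.mul_sum,
    ← Finset.mul_sum, sum_inv_mul (fun a => nu s a) b, sum_nu]
  have e2 : ∑ a : A, (if a = 1 then nu s (a⁻¹ * b) else 0) = nu s b := by
    rw [Finset.sum_ite_eq' Finset.univ (1 : A)]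
    simp
  rw [e2]
  unfold nu
  field_simp
  ring

lemma nu_one (b : A) : nu 1 b = if b = 1 then (1 : ℝ) else 0 := by
  unfold nu; simp

lemma sum_nu_ne (r : ℝ) : ∑ a : A, nu r a * (if a = 1 then 0 else 1) =
    (1 - r) * (1 - 1 / Fintype.card A) := by
  have hc := card_pos' (A := A)
  have e1 : ∀ a : A, nu r a * (if a = 1 then 0 else 1) = nu r a - (if a = 1 then nu r a else 0) := by
    intro a
    split_ifs <;> ring
  rw [Finset.sum_congr rfl (fun a _ => e1 a), Finset.sum_sub_distrib, sum_nu,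
    Finset.sum_ite_eq' Finset.univ (1 : A)]
  simp only [Finset.mem_univ, if_true]
  unfold nu
  simp only [if_true]
  field_simp
  ring

end nu

section prod

variable {A : Type} [Group A] [Fintype A] [DecidableEq A] {m : ℕ}

/-- product law -/
noncomputable def Q (r : ℝ) (g : Fin m → A) : ℝ := ∏ i, nu r (g i)

lemma sum_prod (f : A → ℝ) : ∑ g : Fin m → A, ∏ i, f (g i) = (∑ a, f a) ^ m := by
  have := Finset.prod_univ_sum (fun _ : Fin m => (Finset.univ : Finset A)) (fun _ a => f a)
  rw [Fintype.piFinset_univ] at this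
  rw [← this]
  simp

lemma sum_Q (r : ℝ) : ∑ g : Fin m → A, Q r g = 1 := by
  unfold Q
  rw [sum_prod, sum_nu, one_pow]

lemma Q_nonneg {r : ℝ} (h0 : 0 ≤ r) (h1 : r ≤ 1) (g : Fin m → A) : 0 ≤ Q r g :=
  Finset.prod_nonneg fun i _ => nu_nonneg h0 h1 (g i)

lemma Q_one (g : Fin m → A) : Q 1 g = if g = 1 then (1 : ℝ) else 0 := by
  unfold Q
  simp only [nu_one]
  by_cases h : g = 1
  · subst h; simp
  · rw [if_neg h]
    obtain ⟨i, hi⟩ := Function.ne_iff.mp h
    exact Finset.prod_eq_zero (Finset.mem_univ i) (if_neg hi)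

lemma Q_conv (r s : ℝ) (g : Fin m → A) :
    ∑ h : Fin m → A, Q r h * Q s (h⁻¹ * g) = Q (r * s) g := by
  unfold Q
  have := Finset.prod_univ_sum (fun _ : Fin m => (Finset.univ : Finset A))
    (fun i a => nu r a * nu s (a⁻¹ * g i))
  rw [Fintype.piFinset_univ] at this
  simp only [nu_conv] at this
  rw [this]
  apply Finset.sum_congr rfl
  intro h _
  rw [← Finset.prod_mul_distrib]
  rfl

/-- the law at time `k` is `P (1 - δ)^k (1/2)^k` -/
noncomputable def P (x r : ℝ) (g : Fin m → A) : ℝ :=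
  x * Q r g + (1 - x) / Fintype.card (Fin m → A)

lemma sum_P (x r : ℝ) : ∑ g : Fin m → A, P x r g = 1 := by
  unfold P
  rw [Finset.sum_add_distrib, ← Finset.mul_sum, sum_Q, Finset.sum_const, Finset.card_univ,
    nsmul_eq_mul]
  have := card_pos' (A := Fin m → A)
  field_simp
  ring

lemma P_nonneg {x r : ℝ} (hx0 : 0 ≤ x) (hx1 : x ≤ 1) (h0 : 0 ≤ r) (h1 : r ≤ 1) (g : Fin m → A) :
    0 ≤ P x r g := by
  unfold P
  have h2 := card_pos' (A := Fin m → A)
  have h3 : 0 ≤ 1 - x := by linarith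
  have h4 := Q_nonneg h0 h1 g
  positivity

lemma P_conv (x y r s : ℝ) (g : Fin m → A) :
    ∑ h : Fin m → A, P x r h * P y s (h⁻¹ * g) = P (x * y) (r * s) g := by
  have hc := card_pos' (A := Fin m → A)
  unfold P
  set c : ℝ := (Fintype.card (Fin m → A) : ℝ) with hcdef
  have e1 : ∀ h : Fin m → A, (x * Q r h + (1 - x) / c) * (y * Q s (h⁻¹ * g) + (1 - y) / c) =
      x * y * (Q r h * Q s (h⁻¹ * g)) + x * ((1 - y) / c) * Q r h +
      (1 - x) / c * y * Q s (h⁻¹ * g) + (1 - x) / c * ((1 - y) / c) := by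
    intro h; ring
  rw [Finset.sum_congr rfl (fun h _ => e1 h), Finset.sum_add_distrib, Finset.sum_add_distrib,
    Finset.sum_add_distrib, ← Finset.mul_sum, ← Finset.mul_sum, ← Finset.mul_sum, Q_conv, sum_Q,
    sum_inv_mul (fun h => Q s h) g, sum_Q, Finset.sum_const, Finset.card_univ, nsmul_eq_mul,
    ← hcdef]
  field_simp
  ring

lemma law_P (x r : ℝ) (k : ℕ) (g : Fin m → A) : law (P x r) k g = P (x ^ k) (r ^ k) g := by
  apply law_eq (P x r) (fun k g => P (x ^ k) (r ^ k) g)
  · intro g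
    simp only [pow_zero]
    unfold P
    rw [Q_one]
    simp
  · intro k g
    rw [P_conv, pow_succ', pow_succ']

/-- total variation distance of the product law to uniform -/
noncomputable def D (A : Type) [Group A] [Fintype A] [DecidableEq A] (m : ℕ) (r : ℝ) : ℝ :=
  1 / 2 * ∑ g : Fin m → A, |Q r g - 1 / (Fintype.card (Fin m → A) : ℝ)|

lemma tv_eq (x r : ℝ) (hx : 0 ≤ x) (k : ℕ) :
    (1 / 2 : ℝ) * ∑ g : Fin m → A, |law (P x r) k g - 1 / (Fintype.card (Fin m → A) : ℝ)| =
      x ^ k * D A m (r ^ k) := by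
  unfold D
  have e1 : ∀ g : Fin m → A, |law (P x r) k g - 1 / (Fintype.card (Fin m → A) : ℝ)| =
      x ^ k * |Q (r ^ k) g - 1 / (Fintype.card (Fin m → A) : ℝ)| := by
    intro g
    rw [law_P]
    unfold P
    have : x ^ k * Q (r ^ k) g + (1 - x ^ k) / (Fintype.card (Fin m → A) : ℝ) -
        1 / (Fintype.card (Fin m → A) : ℝ) =
        x ^ k * (Q (r ^ k) g - 1 / (Fintype.card (Fin m → A) : ℝ)) := by ring
    rw [this, abs_mul, abs_of_nonneg (pow_nonneg hx k)]
  rw [Finset.sum_congr rfl (fun g _ => e1 g), ← Finset.mul_sum]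
  ring

lemma sum_unif : ∑ _g : Fin m → A, 1 / (Fintype.card (Fin m → A) : ℝ) = 1 := by
  rw [Finset.sum_const, Finset.card_univ, nsmul_eq_mul]
  have := card_pos' (A := Fin m → A)
  field_simp

lemma D_le_one {r : ℝ} (h0 : 0 ≤ r) (h1 : r ≤ 1) : D A m r ≤ 1 := by
  unfold D
  have hc := card_pos' (A := Fin m → A)
  have e1 : ∑ g : Fin m → A, |Q r g - 1 / (Fintype.card (Fin m → A) : ℝ)| ≤
      ∑ g : Fin m → A, (Q r g + 1 / (Fintype.card (Fin m → A) : ℝ)) := by
    apply Finset.sum_le_sum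
    intro g _
    have h2 := Q_nonneg h0 h1 g
    have h3 : 0 ≤ 1 / (Fintype.card (Fin m → A) : ℝ) := by positivity
    rw [abs_le]
    constructor <;> linarith
  rw [Finset.sum_add_distrib, sum_Q, sum_unif] at e1
  linarith

lemma D_le_mul {r : ℝ} (h0 : 0 ≤ r) (h1 : r ≤ 1) : D A m r ≤ m * r := by
  unfold D
  have hc := card_pos' (A := Fin m → A)
  have hcA := card_pos' (A := A)
  have key : ∀ g : Fin m → A, (1 - m * r) * (1 / (Fintype.card (Fin m → A) : ℝ)) ≤ Q r g := by
    intro g
    have e1 : (1 - r) ^ m * (1 / (Fintype.card (Fin m → A) : ℝ)) ≤ Q r g := by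
      unfold Q
      have e2 : (1 - r) ^ m * (1 / (Fintype.card (Fin m → A) : ℝ)) =
          ∏ _i : Fin m, (1 - r) / (Fintype.card A : ℝ) := by
        rw [Finset.prod_const, Finset.card_univ, Fintype.card_fin, Fintype.card_fun,
          Fintype.card_fin, div_pow]
        push_cast
        ring
      rw [e2]
      apply Finset.prod_le_prod
      · intro i _
        have : 0 ≤ 1 - r := by linarith
        positivity
      · intro i _
        unfold nu
        have : (0 : ℝ) ≤ if g i = 1 then 1 else 0 := by split_ifs <;> norm_num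
        have := mul_nonneg h0 this
        linarith
    have e3 : 1 - m * r ≤ (1 - r) ^ m := by
      have := one_add_mul_le_pow (show (-2 : ℝ) ≤ -r by linarith) m
      have e4 : (1 + -r) = 1 - r := by ring
      rw [e4] at this
      linarith
    calc (1 - m * r) * (1 / (Fintype.card (Fin m → A) : ℝ))
        ≤ (1 - r) ^ m * (1 / (Fintype.card (Fin m → A) : ℝ)) := by
          apply mul_le_mul_of_nonneg_right e3
          positivity
      _ ≤ _ := e1
  have hmr : 0 ≤ (m : ℝ) * r := by positivity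
  have e1 : ∑ g : Fin m → A, |Q r g - 1 / (Fintype.card (Fin m → A) : ℝ)| ≤
      ∑ g : Fin m → A, ((Q r g - 1 / (Fintype.card (Fin m → A) : ℝ)) +
        2 * (m * r) * (1 / (Fintype.card (Fin m → A) : ℝ))) := by
    apply Finset.sum_le_sum
    intro g _
    have h2 := key g
    have h3 : 0 ≤ 1 / (Fintype.card (Fin m → A) : ℝ) := by positivity
    have h4 : 0 ≤ (m * r) * (1 / (Fintype.card (Fin m → A) : ℝ)) := by positivity
    rw [abs_le]
    constructor <;> nlinarith
  rw [Finset.sum_add_distrib, Finset.sum_sub_distrib, sum_Q, sum_unif, ← Finset.mul_sum,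
    sum_unif] at e1
  linarith

lemma le_D {r : ℝ} (h0 : 0 ≤ r) (h1 : r ≤ 1) :
    (1 - 1 / (Fintype.card A : ℝ)) ^ m - (1 - r) ^ m ≤ D A m r := by
  unfold D
  have hc := card_pos' (A := Fin m → A)
  have hcA := card_pos' (A := A)
  have hcA1 : (1 : ℝ) ≤ Fintype.card A := by exact_mod_cast Fintype.card_pos (α := A)
  have hle1 : 1 / (Fintype.card A : ℝ) ≤ 1 := by
    rw [div_le_one hcA]; exact hcA1
  have hge0 : 0 ≤ 1 / (Fintype.card A : ℝ) := by positivity
  let I : (Fin m → A) → ℝ := fun g => ∏ i, if g i = 1 then 0 else 1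
  have hI : ∀ g, 0 ≤ I g ∧ I g ≤ 1 := by
    intro g
    constructor
    · apply Finset.prod_nonneg
      intro i _
      split_ifs <;> norm_num
    · apply Finset.prod_le_one
      · intro i _
        split_ifs <;> norm_num
      · intro i _
        split_ifs <;> norm_num
  have e1 : ∑ g : Fin m → A, (Q r g - 1 / (Fintype.card (Fin m → A) : ℝ)) * (1 - 2 * I g) ≤
      ∑ g : Fin m → A, |Q r g - 1 / (Fintype.card (Fin m → A) : ℝ)| := by
    apply Finset.sum_le_sum
    intro g _
    have h2 : |1 - 2 * I g| ≤ 1 := by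
      rw [abs_le]
      have := hI g
      constructor <;> linarith
    calc (Q r g - 1 / (Fintype.card (Fin m → A) : ℝ)) * (1 - 2 * I g)
        ≤ |(Q r g - 1 / (Fintype.card (Fin m → A) : ℝ)) * (1 - 2 * I g)| := le_abs_self _
      _ = |Q r g - 1 / (Fintype.card (Fin m → A) : ℝ)| * |1 - 2 * I g| := abs_mul _ _
      _ ≤ |Q r g - 1 / (Fintype.card (Fin m → A) : ℝ)| * 1 := by gcongr
      _ = _ := mul_one _
  have e2 : ∀ g : Fin m → A, (Q r g - 1 / (Fintype.card (Fin m → A) : ℝ)) * (1 - 2 * I g) =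
      Q r g - 1 / (Fintype.card (Fin m → A) : ℝ) - 2 * (Q r g * I g) +
        2 * (1 / (Fintype.card (Fin m → A) : ℝ) * I g) := by
    intro g; ring
  have e3 : ∑ g : Fin m → A, Q r g * I g = ((1 - r) * (1 - 1 / Fintype.card A)) ^ m := by
    rw [← sum_nu_ne, ← sum_prod]
    apply Finset.sum_congr rfl
    intro g _
    rw [Finset.prod_mul_distrib]
    rfl
  have e4 : ∑ g : Fin m → A, 1 / (Fintype.card (Fin m → A) : ℝ) * I g =
      (1 - 1 / (Fintype.card A : ℝ)) ^ m := by
    have e5 : ∑ g : Fin m → A, I g = ((Fintype.card A : ℝ) - 1) ^ m := by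
      have := sum_prod (m := m) (fun a : A => if a = 1 then (0 : ℝ) else 1)
      rw [show (∑ g : Fin m → A, I g) = ∑ g : Fin m → A, ∏ i, (if g i = 1 then (0 : ℝ) else 1)
        from rfl, this]
      congr 1
      have e6 : ∀ a : A, (if a = 1 then (0 : ℝ) else 1) = 1 - (if a = 1 then 1 else 0) := by
        intro a; split_ifs <;> ring
      rw [Finset.sum_congr rfl (fun a _ => e6 a), Finset.sum_sub_distrib]
      simp
    rw [← Finset.mul_sum, e5, Fintype.card_fun, Fintype.card_fin]
    push_cast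
    rw [one_div, ← inv_pow, ← mul_pow]
    congr 1
    field_simp
  rw [Finset.sum_congr rfl (fun g _ => e2 g), Finset.sum_add_distrib, Finset.sum_sub_distrib,
    Finset.sum_sub_distrib, sum_Q, sum_unif, ← Finset.mul_sum, ← Finset.mul_sum, e3, e4] at e1
  have e7 : ((1 - r) * (1 - 1 / (Fintype.card A : ℝ))) ^ m ≤ (1 - r) ^ m := by
    apply pow_le_pow_left₀
    · apply mul_nonneg <;> linarith
    · calc (1 - r) * (1 - 1 / (Fintype.card A : ℝ)) ≤ (1 - r) * 1 := by
            apply mul_le_mul_of_nonneg_left <;> linarith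
        _ = 1 - r := mul_one _
  linarith

end prod

end Pool.Agent.Y171.Precut
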